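import Pool.Agent.J6H77.WS.KeyR
import Pool.Agent.TH102.DP.Cut

/-!
# Asymptotic independence for points with real weights

`AW w B μ ν`: for large `s` the points with the multiplicities `⌊w i * s⌋` impose independent
conditions on the Laurent polynomials with exponents in the triangles with a horizontal base of
length `(B + η) s` and the slopes `μ, ν`.
-/

set_option autoImplicit false

namespace Pool.Agent.J6H77.WS

open Finset Pool.Agent.TH880.NB Pool.Agent.TH176.Nag Pool.Agent.TH181.NagM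

variable {ι : Type}

/-- the multiplicities -/
noncomputable def ml (w : ι → ℝ) (s : ℕ) (i : ι) : ℕ := ⌊w i * s⌋₊

/-- the number of conditions -/
noncomputable def cond [Fintype ι] (w : ι → ℝ) (s : ℕ) : ℕ := ∑ i, (ml w s i + 1).choose 2

/-- asymptotic independence for points with real weights -/
def AW [Fintype ι] (w : ι → ℝ) (B μ ν : ℝ) : Prop :=
  ∀ η : ℝ, 0 < η → ∃ s0 : ℕ, ∀ s : ℕ, s0 ≤ s → ∀ α : ℝ,
    Rk (ml w s) (Reg α (α + (B + η) * s) μ ν) (cond w s)

section moves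
variable [Fintype ι] {w : ι → ℝ}

theorem AW.regA {B μ ν B' μ' ν' : ℝ} (x y u v : ℤ) (hdet : x * u + y * v = 1) (hx : 0 ≤ x)
    (h1 : 0 ≤ x * μ + y) (h2 : x * ν ≤ y) (hn : 0 < μ + ν)
    (hB : B' * (μ + ν) = (y + x * μ) * B)
    (hμ : μ' = x * (x * μ + y)) (hν : ν' * (μ + ν) = (y - x * ν) * (y + x * μ))
    (h : AW w B' μ' ν') : AW w B μ ν := by
  intro η hη
  have hX : 0 < (y : ℝ) + x * μ := by
    rcases lt_or_eq_of_le h1 with h3 | h3
    · linarith
    · exfalso
      have hx' : (0 : ℝ) ≤ x := by exact_mod_cast hx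
      have h4 : (x : ℝ) * (μ + ν) = 0 := by
        have : 0 ≤ (x : ℝ) * (μ + ν) := mul_nonneg hx' hn.le
        linarith
      have h5 : (x : ℝ) = 0 := (mul_eq_zero.1 h4).resolve_right hn.ne'
      have h6 : (y : ℝ) = 0 := by rw [h5] at h3; linarith
      have hdet' : (x : ℝ) * u + y * v = 1 := by exact_mod_cast hdet
      rw [h5, h6] at hdet'
      simp at hdet'
  set c : ℝ := (y + x * μ) / (μ + ν) with hc
  have hc0 : 0 < c := div_pos hX hn
  have hcn : c * (μ + ν) = y + x * μ := by rw [hc]; field_simp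
  obtain ⟨s1, hs1⟩ := h (η * c / 2) (by positivity)
  obtain ⟨s2, hs2⟩ := exists_large (η := η * c / 2) (c := μ' + ν') (by positivity)
  refine ⟨max s1 s2, fun s hs α => ?_⟩
  have hs1' := hs1 s ((le_max_left _ _).trans hs)
  have hs2' := hs2 s ((le_max_right _ _).trans hs)
  refine Rk_regA x y u v hdet hx h1 h2 hn (α' := x * α) (β' := x * α + (B' + η * c) * s)
    (μ' := μ') (ν' := ν') rfl ?_ hμ hν ?_
  · linear_combination (s : ℝ) * hB + η * s * hcn
  · refine (hs1' (x * α + μ')).mono (Reg_mono le_rfl ?_)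
    have e : x * α + μ' + (B' + η * c / 2) * s = x * α + (B' + η * c) * s + μ' - η * c / 2 * s := by ring
    rw [e]
    linarith

theorem AW.regC {B μ ν B' μ' ν' : ℝ} (x y u v : ℤ) (hdet : x * u + y * v = 1) (hx : 0 ≤ x)
    (h1 : 0 ≤ x * μ + y) (h2 : (y : ℝ) ≤ x * ν)
    (hB : B' = x * B) (hμ : μ' = x * (x * μ + y)) (hν : ν' = x * (x * ν - y))
    (h : AW w B' μ' ν') : AW w B μ ν := by
  intro η hη
  have hx0 : (0 : ℝ) < x := by
    have hx' : (0 : ℝ) ≤ x := by exact_mod_cast hx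
    have hdet' : (x : ℝ) * u + y * v = 1 := by exact_mod_cast hdet
    rcases lt_or_eq_of_le hx' with h3 | h3
    · exact h3
    · exfalso
      rw [← h3] at h1 h2 hdet'
      have h4 : (y : ℝ) = 0 := by linarith
      rw [h4] at hdet'
      simp at hdet'
  obtain ⟨s1, hs1⟩ := h (η * x / 2) (by positivity)
  obtain ⟨s2, hs2⟩ := exists_large (η := η * x / 2) (c := μ' + ν') (by positivity)
  refine ⟨max s1 s2, fun s hs α => ?_⟩
  have hs1' := hs1 s ((le_max_left _ _).trans hs)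
  have hs2' := hs2 s ((le_max_right _ _).trans hs)
  refine Rk_regC x y u v hdet hx h1 h2 (α' := x * α) (β' := x * (α + (B + η) * s))
    (μ' := μ') (ν' := ν') rfl rfl hμ hν ?_
  refine (hs1' (x * α + μ')).mono (Reg_mono le_rfl ?_)
  rw [hB]
  have e : x * α + μ' + (x * B + η * x / 2) * s = x * (α + (B + η) * s) + μ' - η * x / 2 * s := by ring
  rw [e]
  linarith

theorem AW.shear {B μ ν : ℝ} (k : ℤ) (h : AW w B (μ + k) (ν - k)) : AW w B μ ν := by
  intro η hη
  obtain ⟨s0, hs0⟩ := h η hη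
  refine ⟨s0, fun s hs α => (hs0 s hs α).image 1 (-k) 0 1 0 0 (by norm_num) ?_⟩
  rintro ⟨a, b⟩ ⟨h1, h2, h3⟩
  simp only at h1 h2 h3
  refine ⟨by simpa using h1, ?_, ?_⟩
  · simp only
    push_cast
    linarith
  · simp only
    push_cast
    linarith

/-- the nodal step -/
theorem AW.node {ρ τ : ℝ} (hρ : 3 / 2 ≤ ρ) (h0 : 0 < τ) (h1 : τ < 1 / 2) {B : ℝ} (hB0 : 0 ≤ B)
    (h : AW w (2 * B) (4 * ρ * τ) (4 * ρ * (1 - τ))) : AW w B 0 ρ := by
  intro η hη
  obtain ⟨s1, hs1⟩ := h η hη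
  obtain ⟨s2, hs2⟩ := exists_large (η := η) (c := 2 * ρ + 3) hη
  refine ⟨max s1 s2, fun s hs α => ?_⟩
  have hs1' := hs1 s ((le_max_left _ _).trans hs)
  have hs2' := hs2 s ((le_max_right _ _).trans hs)
  have hBs : 0 ≤ B * s := mul_nonneg hB0 (Nat.cast_nonneg s)
  obtain ⟨e, he⟩ : ∃ e : ℝ, e = (B + η) * s - ρ - 1 := ⟨_, rfl⟩
  have he' : e = B * s + η * s - ρ - 1 := by rw [he]; ring
  have he0 : 0 ≤ e := by rw [he']; linarith
  have hW : Rk (ml w s) (WtdR ρ (e + ρ)) (cond w s) := by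
    refine keyR hρ h0 h1 he0 ((hs1' (-(2 * e * τ) + 1 / 2)).mono ?_)
    rintro m ⟨g1, g2, g3⟩
    refine ⟨g1, ?_, ?_⟩
    · have e3 : -(2 * (e - 2 * ρ * m.2) * τ) = -(2 * e * τ) + 4 * ρ * τ * m.2 := by ring
      rw [e3]
      linarith
    · have e3 : 2 * (e - 2 * ρ * m.2) * (1 - τ) =
          -(2 * e * τ) + 2 * e - 4 * ρ * (1 - τ) * m.2 := by ring
      rw [e3]
      have e4 : (2 * B + η) * s + (2 * ρ + 3) ≤ 2 * (B * s + η * s) := by
        have e5 : (2 * B + η) * s = 2 * (B * s) + η * s := by ring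
        rw [e5]
        linarith
      linarith
  refine hW.image 1 0 0 1 ⌈α⌉ 0 (by norm_num) ?_
  rintro ⟨a, b⟩ ⟨g1, g2, g3⟩
  simp only at g1 g2 g3
  have hc1 : α ≤ ⌈α⌉ := Int.le_ceil α
  have hc2 : (⌈α⌉ : ℝ) < α + 1 := Int.ceil_lt_add_one α
  have ha : (0 : ℝ) ≤ a := by exact_mod_cast g1
  refine ⟨?_, ?_, ?_⟩
  · simp only
    linarith
  · simp only
    push_cast
    linarith
  · simp only
    push_cast
    linarith

/-- **reaching a triangle of any real shape `x ≥ 4 ρ`** -/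
theorem AW.reach {ρ x S : ℝ} (hρ : 3 / 2 ≤ ρ) (hx : 4 * ρ ≤ x) (hS : 0 ≤ S)
    (h : AW w (S * √x) (2 * √(ρ * x)) (x - 2 * √(ρ * x))) : AW w (S * √ρ) 0 ρ := by
  have hρ0 : 0 < ρ := by linarith
  have hx0 : 0 < x := by linarith
  obtain ⟨q, hq⟩ : ∃ q : ℝ, q = 2 * √(ρ * x) := ⟨_, rfl⟩
  rw [← hq] at h
  have hq2 : q * q = 4 * (ρ * x) := by
    rw [hq]
    have := Real.mul_self_sqrt (show (0 : ℝ) ≤ ρ * x by positivity)
    linear_combination 4 * this
  have hq0 : 0 < q := by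
    rw [hq]
    positivity
  have hq4 : 4 * ρ ≤ q := by
    by_contra hc
    push Not at hc
    nlinarith
  obtain ⟨v, hv⟩ : ∃ v : ℤ, v = ⌈q⌉ - 1 := ⟨_, rfl⟩
  have hv1 : (v : ℝ) < q := by
    rw [hv]
    push_cast
    have := Int.ceil_lt_add_one q
    linarith
  have hv2 : q - v ≤ 1 := by
    rw [hv]
    push_cast
    have := Int.le_ceil q
    linarith
  obtain ⟨τ, hτ⟩ : ∃ τ : ℝ, τ = (q - v) / (4 * ρ) := ⟨_, rfl⟩
  have hτm : 4 * ρ * τ = q - v := by
    rw [hτ]
    field_simp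
  have hτ0 : 0 < τ := by
    rw [hτ]
    have : 0 < q - v := by linarith
    positivity
  have hτ1 : τ < 1 / 2 := by
    by_contra hc
    push Not at hc
    nlinarith
  refine AW.node hρ hτ0 hτ1 (by positivity) ?_
  have e1 : 4 * ρ * (1 - τ) = 4 * ρ - (q - v) := by
    rw [← hτm]; ring
  rw [hτm, e1]
  refine AW.regA 1 v 1 0 (by norm_num) (by norm_num) ?_ ?_ ?_ (B' := S * √x) (μ' := q)
    (ν' := x - q) ?_ ?_ ?_ h
  · push_cast; linarith
  · push_cast; linarith
  · linarith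
  · have e2 : √(ρ * x) = √ρ * √x := Real.sqrt_mul hρ0.le x
    have e3 : √ρ * √ρ = ρ := Real.mul_self_sqrt hρ0.le
    push_cast
    rw [hq, e2]
    linear_combination (-(4 * S * √x)) * e3
  · push_cast; ring
  · push_cast
    linear_combination -hq2

end moves

/-- **asymptotic independence on the weighted planes of real weight `ρ`** -/
theorem PA_real {ρ : ℝ} (hρ : 3 / 2 ≤ ρ) {n : ℕ} (hn : 4 * ρ ≤ n) : PA n 0 ρ := by
  have hρ0 : 0 < ρ := by linarith
  have hn0 : (0 : ℝ) < n := by linarith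
  obtain ⟨q, hq⟩ : ∃ q : ℝ, q = 2 * √(ρ * n) := ⟨_, rfl⟩
  have hq2 : q * q = 4 * (ρ * n) := by
    rw [hq]
    have := Real.mul_self_sqrt (show (0 : ℝ) ≤ ρ * n by positivity)
    linear_combination 4 * this
  have hq0 : 0 < q := by
    rw [hq]
    positivity
  have hqn : q ≤ n := by
    by_contra hc
    push Not at hc
    nlinarith
  have hml : ∀ s : ℕ, ml (fun _ : Fin n => (1 : ℝ)) s = fun _ => s := by
    intro s
    funext i
    simp [ml]
  have hcond : ∀ s : ℕ, cond (fun _ : Fin n => (1 : ℝ)) s = n * (s + 1).choose 2 := by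
    intro s
    unfold cond
    rw [hml]
    simp
  have key : AW (fun _ : Fin n => (1 : ℝ)) (√n * √ρ) 0 ρ := by
    refine AW.reach hρ hn (Real.sqrt_nonneg _) ?_
    rw [← hq, Real.mul_self_sqrt hn0.le]
    intro η hη
    obtain ⟨s0, hs0⟩ := AS.base n hq0.le (show 0 ≤ (n : ℝ) - q by linarith) (by ring) η hη
    refine ⟨s0, fun s hs α => ?_⟩
    rw [hml, hcond]
    exact hs0 s hs α
  unfold PA
  rw [zero_add]
  intro η hη
  obtain ⟨s0, hs0⟩ := key η hη
  refine ⟨s0, fun s hs α => ?_⟩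
  have h1 := hs0 s hs α
  rwa [hml, hcond] at h1

/-- all slopes -/
theorem PA_slopes {μ ν : ℝ} (h : 3 / 2 ≤ μ + ν) {n : ℕ} (hn : 4 * (μ + ν) ≤ n) : PA n μ ν := by
  have hn0 : (0 : ℝ) < n := by linarith
  have hn1 : 1 ≤ n := by
    have : 0 < n := by exact_mod_cast hn0
    omega
  exact (Mv.toRT (μ := μ) (ν := ν) (by linarith)).closed (PA.closed hn1) (PA_real h hn)

/-- a block of points of the same weight -/
theorem AW.block {n : ℕ} {u lam κ : ℝ} (hu : 0 < u) (hlam : 0 < lam)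
    (h2 : 3 / 2 ≤ lam * (n * u ^ 2)) (h4 : 4 * (lam * u ^ 2) ≤ 1) :
    AW (fun _ : Fin n => u) (√lam * (n * u ^ 2)) κ (lam * (n * u ^ 2) - κ) := by
  obtain ⟨σ, hσ⟩ : ∃ σ : ℝ, σ = lam * (n * u ^ 2) := ⟨_, rfl⟩
  have hn0 : (0 : ℝ) ≤ n := Nat.cast_nonneg n
  have hPA : PA n κ (σ - κ) := by
    refine PA_slopes (by rw [hσ]; linarith) ?_
    have e : κ + (σ - κ) = n * (lam * u ^ 2) := by rw [hσ]; ring
    rw [e]
    nlinarith
  have hB : √lam * (n * u ^ 2) = u * (√n * √(κ + (σ - κ))) := by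
    have e : κ + (σ - κ) = lam * (n * u ^ 2) := by rw [hσ]; ring
    rw [e, Real.sqrt_mul hlam.le, Real.sqrt_mul hn0, Real.sqrt_sq hu.le]
    have e3 : √(n : ℝ) * √(n : ℝ) = n := Real.mul_self_sqrt hn0
    linear_combination (-(√lam * u ^ 2)) * e3
  rw [← hσ, hB]
  unfold PA at hPA
  obtain ⟨B, hBd⟩ : ∃ B : ℝ, B = √n * √(κ + (σ - κ)) := ⟨_, rfl⟩
  rw [← hBd] at hPA ⊢
  have hB0 : 0 ≤ B := by rw [hBd]; positivity
  intro η hη
  obtain ⟨s1, hs1⟩ := hPA (η / u) (by positivity)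
  obtain ⟨s2, hs2⟩ := exists_large (η := u) (c := s1 + 1) hu
  refine ⟨s2, fun s hs α => ?_⟩
  have hs2' := hs2 s hs
  have hfl : (⌊u * (s : ℝ)⌋₊ : ℝ) ≤ u * s := Nat.floor_le (by positivity)
  have hfl2 : s1 ≤ ⌊u * (s : ℝ)⌋₊ := Nat.le_floor (by linarith)
  have h1 := hs1 _ hfl2 α
  have e1 : ml (fun _ : Fin n => u) s = fun _ => ⌊u * (s : ℝ)⌋₊ := rfl
  have e2 : cond (fun _ : Fin n => u) s = n * (⌊u * (s : ℝ)⌋₊ + 1).choose 2 := by
    unfold cond
    rw [e1]
    simp
  rw [e1, e2]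
  refine h1.mono (Reg_mono le_rfl ?_)
  have h3 : (B + η / u) * (⌊u * (s : ℝ)⌋₊ : ℝ) ≤ (B + η / u) * (u * s) :=
    mul_le_mul_of_nonneg_left hfl (by positivity)
  have e3 : (B + η / u) * (u * s) = (u * B + η) * s := by field_simp
  linarith

/-- the total mass -/
noncomputable def mass [Fintype ι] (w : ι → ℝ) : ℝ := ∑ i, w i ^ 2

/-- asymptotic independence on all triangles of height `1 / √lam` -/
def UW [Fintype ι] (w : ι → ℝ) (lam : ℝ) : Prop :=
  ∀ κ : ℝ, AW w (√lam * mass w) κ (lam * mass w - κ)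

theorem ml_sum {ι κ : Type} (w : ι → ℝ) (v : κ → ℝ) (s : ℕ) :
    ml (Sum.elim w v) s = Sum.elim (ml w s) (ml v s) := by
  funext i
  rcases i with i | i <;> rfl

theorem cond_sum {ι κ : Type} [Fintype ι] [Fintype κ] (w : ι → ℝ) (v : κ → ℝ) (s : ℕ) :
    cond (Sum.elim w v) s = cond w s + cond v s := by
  unfold cond
  rw [ml_sum, Fintype.sum_sum_type]
  rfl

theorem mass_sum {ι κ : Type} [Fintype ι] [Fintype κ] (w : ι → ℝ) (v : κ → ℝ) :
    mass (Sum.elim w v) = mass w + mass v := by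
  unfold mass
  rw [Fintype.sum_sum_type]
  rfl

theorem UW.sum {ι κ : Type} [Fintype ι] [Fintype κ] {w : ι → ℝ} {v : κ → ℝ} {lam : ℝ}
    (hlam : 0 < lam) (hw : 0 < mass w) (hv : 0 < mass v) (h1 : UW w lam) (h2 : UW v lam) :
    UW (Sum.elim w v) lam := by
  classical
  intro K
  rw [mass_sum]
  obtain ⟨m1, hm1⟩ : ∃ m, m = mass w := ⟨_, rfl⟩
  obtain ⟨m2, hm2⟩ : ∃ m, m = mass v := ⟨_, rfl⟩
  rw [← hm1] at hw ⊢
  rw [← hm2] at hv ⊢
  intro η hη
  have hsl : 0 < √lam := Real.sqrt_pos.2 hlam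
  have hsl2 : √lam * √lam = lam := Real.mul_self_sqrt hlam.le
  obtain ⟨θ, hθ⟩ : ∃ θ : ℝ, θ = η / (√lam * (m1 + m2)) := ⟨_, rfl⟩
  have hθ0 : 0 < θ := by rw [hθ]; positivity
  have hηθ : η = √lam * (m1 + m2) * θ := by rw [hθ]; field_simp
  obtain ⟨s1, hs1⟩ := h1 K (√lam * m1 * (θ / 2)) (by positivity)
  obtain ⟨s2, hs2⟩ := h2 (K - lam * m1) (√lam * m2 * (θ / 2)) (by positivity)
  rw [← hm1] at hs1
  rw [← hm2] at hs2
  refine ⟨max (max s1 s2) 1, fun s hs α => ?_⟩
  have hss1 : s1 ≤ s := (le_max_left _ _).trans ((le_max_left _ _).trans hs)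
  have hss2 : s2 ≤ s := (le_max_right _ _).trans ((le_max_left _ _).trans hs)
  have hs0 : (0 : ℝ) < s := by
    have : 1 ≤ s := (le_max_right _ _).trans hs
    exact_mod_cast this
  obtain ⟨A, hA⟩ : ∃ A : ℝ, A = √lam * m1 * (1 + θ / 2) * s := ⟨_, rfl⟩
  obtain ⟨C, hC⟩ : ∃ C : ℝ, C = √lam * m2 * (1 + θ / 2) * s := ⟨_, rfl⟩
  obtain ⟨G, hG⟩ : ∃ G : ℝ, G = √lam * (m1 + m2) * (θ / 2) * s := ⟨_, rfl⟩
  have hG0 : 0 < G := by rw [hG]; positivity
  have htot : (√lam * (m1 + m2) + η) * s = A + C + G := by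
    rw [hA, hC, hG, hηθ]; ring
  obtain ⟨H, hH⟩ : ∃ H : ℝ, H = (1 + θ / 2) * s / √lam := ⟨_, rfl⟩
  have hH0 : 0 < H := by rw [hH]; positivity
  have hAH : A = lam * m1 * H := by
    rw [hA, hH, show lam * m1 * ((1 + θ / 2) * s / √lam) = lam / √lam * m1 * (1 + θ / 2) * s by ring,
      Real.div_sqrt]
  have hCH : C = lam * m2 * H := by
    rw [hC, hH, show lam * m2 * ((1 + θ / 2) * s / √lam) = lam / √lam * m2 * (1 + θ / 2) * s by ring,
      Real.div_sqrt]
  obtain ⟨T1, hT1, hN1, hE1⟩ := hs1 s hss1 α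
  obtain ⟨T2, hT2, hN2, hE2⟩ := hs2 s hss2 (α + A + G)
  have e1 : α + (√lam * m1 + √lam * m1 * (θ / 2)) * s = α + A := by rw [hA]; ring
  have e2 : α + A + G + (√lam * m2 + √lam * m2 * (θ / 2)) * s = α + A + G + C := by rw [hC]; ring
  rw [e1] at hT1
  rw [e2] at hT2
  rw [htot]
  have hc1 : ∀ m ∈ (T1 : Set (ℤ × ℤ)), (m.1 : ℝ) + (lam * m1 - K) * m.2 ≤ α + A := by
    intro m hm
    obtain ⟨-, -, g3⟩ := hT1 hm
    linarith
  have hc2 : ∀ m ∈ (T2 : Set (ℤ × ℤ)), α + A < (m.1 : ℝ) + (lam * m1 - K) * m.2 := by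
    intro m hm
    obtain ⟨-, g2, -⟩ := hT2 hm
    have : (K - lam * m1) * (m.2 : ℝ) = -((lam * m1 - K) * m.2) := by ring
    linarith
  have hdisj : Disjoint T1 T2 := by
    rw [Finset.disjoint_left]
    intro m hm hm'
    have g1 := hc1 m hm
    have g2 := hc2 m hm'
    linarith
  refine ⟨T1 ∪ T2, ?_, ?_, ?_⟩
  · intro m hm
    rw [Finset.coe_union] at hm
    rcases hm with hm | hm
    · obtain ⟨g1, g2, g3⟩ := hT1 hm
      refine ⟨g1, g2, ?_⟩
      have gb : (0 : ℝ) ≤ m.2 := by exact_mod_cast g1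
      -- the height
      have gH : (m.2 : ℝ) ≤ H := by
        have g4 : lam * m1 * (m.2 : ℝ) ≤ lam * m1 * H := by
          rw [← hAH]
          linarith
        exact le_of_mul_le_mul_left g4 (by positivity)
      have g5 : lam * m2 * (m.2 : ℝ) ≤ C := by
        rw [hCH]
        exact mul_le_mul_of_nonneg_left gH (by positivity)
      linarith
    · obtain ⟨g1, g2, g3⟩ := hT2 hm
      have gb : (0 : ℝ) ≤ m.2 := by exact_mod_cast g1
      have gH : (m.2 : ℝ) ≤ H := by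
        have g4 : lam * m2 * (m.2 : ℝ) ≤ lam * m2 * H := by
          rw [← hCH]
          linarith
        exact le_of_mul_le_mul_left g4 (by positivity)
      have g5 : lam * m1 * (m.2 : ℝ) ≤ A := by
        rw [hAH]
        exact mul_le_mul_of_nonneg_left gH (by positivity)
      refine ⟨g1, ?_, ?_⟩
      · linarith
      · linarith
  · rw [Finset.card_union_of_disjoint hdisj, hN1, hN2, cond_sum]
  · rw [Finset.coe_union, ml_sum]
    exact Pool.Agent.TH102.DP.Emp_cutR T1.finite_toSet T2.finite_toSet (lam * m1 - K) (α + A) hc1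
      hc2 hE1 hE2

theorem Emp_equiv {ι κ : Type} (e : κ ≃ ι) {w : ι → ℕ} {S : Set (ℤ × ℤ)} (h : Emp w S) :
    Emp (fun j => w (e j)) S := by
  obtain ⟨K, _, _, x, y, hx, hy, hf⟩ := h
  refine ⟨K, inferInstance, inferInstance, fun j => x (e j), fun j => y (e j), fun j => hx _,
    fun j => hy _, fun f h1 h2 => hf f h1 fun i => ?_⟩
  have := h2 (e.symm i)
  simpa using this

theorem AW.equiv {ι κ : Type} [Fintype ι] [Fintype κ] (e : κ ≃ ι) {w : ι → ℝ} {B μ ν : ℝ}
    (h : AW w B μ ν) : AW (fun j => w (e j)) B μ ν := by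
  intro η hη
  obtain ⟨s0, hs0⟩ := h η hη
  refine ⟨s0, fun s hs α => ?_⟩
  obtain ⟨T, hT, hN, hE⟩ := hs0 s hs α
  refine ⟨T, hT, ?_, Emp_equiv e hE⟩
  rw [hN]
  unfold cond
  exact (e.sum_comp fun i => (ml w s i + 1).choose 2).symm

theorem mass_equiv {ι κ : Type} [Fintype ι] [Fintype κ] (e : κ ≃ ι) (w : ι → ℝ) :
    mass (fun j => w (e j)) = mass w := e.sum_comp fun i => w i ^ 2

theorem UW.equiv {ι κ : Type} [Fintype ι] [Fintype κ] (e : κ ≃ ι) {w : ι → ℝ} {lam : ℝ}
    (h : UW w lam) : UW (fun j => w (e j)) lam := by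
  intro K
  rw [mass_equiv]
  exact (h K).equiv e

/-- **all weights: asymptotic independence on all triangles of a given height** -/
theorem UW_all (N : ℕ) : ∀ {ι : Type} [Fintype ι] [Nonempty ι] (w : ι → ℝ) {lam : ℝ},
    Fintype.card ι ≤ N → 0 < lam → (∀ i, 0 < w i) → (∀ i, 4 * (lam * w i ^ 2) ≤ 1) →
    (∀ i, 3 / 2 ≤ lam * ∑ j with w j = w i, w j ^ 2) → UW w lam := by
  classical
  induction N with
  | zero =>
    intro ι _ hne w lam hc
    exact absurd (Fintype.card_pos_iff.2 hne) (by omega)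
  | succ N ih =>
    intro ι _ hne w lam hc hlam hw h4 h2
    obtain ⟨i0⟩ := hne
    obtain ⟨u, hu⟩ : ∃ u, u = w i0 := ⟨_, rfl⟩
    have hu0 : 0 < u := by rw [hu]; exact hw i0
    let P : ι → Prop := fun i => w i = u
    have hPi0 : P i0 := hu.symm
    -- the block
    obtain ⟨n, hn⟩ : ∃ n : ℕ, n = Fintype.card {i // P i} := ⟨_, rfl⟩
    let e1 : {i // P i} ≃ Fin n := Fintype.equivFinOfCardEq hn.symm
    have hmassP : ∑ j with w j = w i0, w j ^ 2 = n * u ^ 2 := by
      have h5 : ∑ j with w j = w i0, w j ^ 2 = ∑ j with w j = w i0, u ^ 2 := by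
        refine Finset.sum_congr rfl fun j hj => ?_
        rw [(Finset.mem_filter.1 hj).2, hu]
      rw [h5, Finset.sum_const, nsmul_eq_mul, hn, Fintype.card_subtype]
      congr 3
      ext j
      simp only [P, hu]
    have hmassB : mass (fun _ : Fin n => u) = n * u ^ 2 := by
      unfold mass
      simp
    have hUB : UW (fun _ : Fin n => u) lam := by
      intro K
      rw [hmassB]
      refine AW.block hu0 hlam ?_ ?_
      · rw [← hmassP]; exact h2 i0
      · rw [hu]; exact h4 i0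
    have hUP : UW (fun i : {i // P i} => w i) lam := by
      have h5 := hUB.equiv e1
      have h6 : (fun i : {i // P i} => w i) = fun i => (fun _ : Fin n => u) (e1 i) := by
        funext i
        exact i.2
      rw [h6]
      exact h5
    have hpos : ∀ {κ : Type} [Fintype κ] [Nonempty κ] (f : κ → ι), 0 < mass fun j => w (f j) := by
      intro κ _ _ f
      unfold mass
      exact Finset.sum_pos (fun j _ => by have := hw (f j); positivity) Finset.univ_nonempty
    rcases isEmpty_or_nonempty {i // ¬ P i} with hE | hE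
    · -- one class
      have hall : ∀ i, P i := fun i => by
        by_contra h
        exact hE.false ⟨i, h⟩
      have h5 := hUP.equiv (Equiv.subtypeUnivEquiv hall).symm
      exact h5
    · have hcard : Fintype.card {i // ¬ P i} ≤ N := by
        have h5 : Fintype.card {i // ¬ P i} < Fintype.card ι :=
          Fintype.card_subtype_lt (x := i0) (by simp only [not_not]; exact hPi0)
        omega
      have hUN : UW (fun i : {i // ¬ P i} => w i) lam := by
        refine ih _ hcard hlam (fun i => hw i) (fun i => h4 i) fun i => ?_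
        refine (h2 i).trans (le_of_eq ?_)
        congr 1
        have h5 : (Finset.univ.filter fun j => w j = w i) =
            (Finset.univ.filter fun j : {i // ¬ P i} => w j = w i).map
              (Function.Embedding.subtype _) := by
          ext j
          rw [Finset.mem_filter, Finset.mem_map]
          constructor
          · rintro ⟨-, hj⟩
            refine ⟨⟨j, fun h => i.2 ?_⟩, ?_, rfl⟩
            · show w i = u
              rw [← hj]; exact h
            · rw [Finset.mem_filter]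
              exact ⟨Finset.mem_univ _, hj⟩
          · rintro ⟨j', hj', rfl⟩
            rw [Finset.mem_filter] at hj'
            exact ⟨Finset.mem_univ _, hj'.2⟩
        rw [h5, Finset.sum_map]
        rfl
      have hNP : Nonempty {i // P i} := ⟨⟨i0, hPi0⟩⟩
      have h6 := UW.sum hlam (hpos fun i : {i // P i} => i.1) (hpos fun i : {i // ¬ P i} => i.1)
        hUP hUN
      have h7 := h6.equiv (Equiv.sumCompl P).symm
      have h8 : (fun i => Sum.elim (fun i : {i // P i} => w i) (fun i : {i // ¬ P i} => w i)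
          ((Equiv.sumCompl P).symm i)) = w := by
        funext i
        by_cases hi : P i
        · rw [Equiv.sumCompl_symm_apply_of_pos hi]
          rfl
        · rw [Equiv.sumCompl_symm_apply_of_neg hi]
          rfl
      rwa [h8] at h7

/-- **Asymptotic independence on the weighted planes `P(1, 1, r)` for points with weights.** -/
theorem AW_final {r : ℕ} (hr : 1 ≤ r) {ι : Type} [Fintype ι] [Nonempty ι] (w : ι → ℝ)
    (hw : ∀ i, 0 < w i) {M : ℝ} (hM0 : 0 < M) (hM : ∀ i, w i ≤ M)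
    (h1 : 16 * (r : ℝ) * M ^ 2 ≤ mass w) (h1' : r = 1 → 64 * M ^ 2 ≤ mass w)
    (h2 : ∀ i, 6 * M ^ 2 ≤ ∑ j with w j = w i, w j ^ 2) : AW w (√(mass w) * √r) 0 r := by
  have hm0 : 0 < mass w := by
    have : (0 : ℝ) < r := by exact_mod_cast hr
    have : 0 < 16 * (r : ℝ) * M ^ 2 := by positivity
    linarith
  obtain ⟨lam, hlam⟩ : ∃ lam : ℝ, lam = 1 / (4 * M ^ 2) := ⟨_, rfl⟩
  have hlam0 : 0 < lam := by rw [hlam]; positivity
  have hlM : lam * (4 * M ^ 2) = 1 := by rw [hlam]; field_simp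
  have hU : UW w lam := by
    refine UW_all (Fintype.card ι) w le_rfl hlam0 hw (fun i => ?_) fun i => ?_
    · have h3 : w i ^ 2 ≤ M ^ 2 := pow_le_pow_left₀ (hw i).le (hM i) 2
      nlinarith [mul_le_mul_of_nonneg_left h3 hlam0.le]
    · have h3 := mul_le_mul_of_nonneg_left (h2 i) hlam0.le
      linarith
  have key : ∀ ρ : ℝ, 3 / 2 ≤ ρ → 16 * ρ * M ^ 2 ≤ mass w → AW w (√(mass w) * √ρ) 0 ρ := by
    intro ρ hρ h3
    refine AW.reach (x := lam * mass w) hρ ?_ (Real.sqrt_nonneg _) ?_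
    · have h4 := mul_le_mul_of_nonneg_left h3 hlam0.le
      have e : lam * (16 * ρ * M ^ 2) = 4 * ρ * (lam * (4 * M ^ 2)) := by ring
      rw [e, hlM] at h4
      linarith
    · have e : √(mass w) * √(lam * mass w) = √lam * mass w := by
        rw [Real.sqrt_mul hlam0.le]
        have := Real.mul_self_sqrt hm0.le
        linear_combination √lam * this
      rw [e]
      exact hU _
  rcases Nat.lt_or_ge 1 r with h3 | h3
  · have h4 : (2 : ℝ) ≤ r := by exact_mod_cast h3
    exact key r (by linarith) h1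
  · have h4 : r = 1 := by omega
    subst h4
    have h5 := key 4 (by norm_num) (by have := h1' rfl; linarith)
    have e4 : √(4 : ℝ) = 2 := by
      rw [show (4 : ℝ) = 2 ^ 2 by norm_num]
      exact Real.sqrt_sq (by norm_num)
    rw [e4] at h5
    rw [Nat.cast_one, Real.sqrt_one, mul_one]
    refine AW.regC 2 1 0 1 (by norm_num) (by norm_num) (by push_cast; norm_num)
      (by push_cast; norm_num) (B' := √(mass w) * 2) (μ' := 2) (ν' := 2) (by push_cast; ring)
      (by push_cast; norm_num) (by push_cast; norm_num) ?_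
    refine AW.shear (-2) ?_
    have e5 : (2 : ℝ) + ((-2 : ℤ) : ℝ) = 0 := by push_cast; norm_num
    have e6 : (2 : ℝ) - ((-2 : ℤ) : ℝ) = 4 := by push_cast; norm_num
    rw [e5, e6]
    exact h5

end Pool.Agent.J6H77.WS
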