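import Pool.Agent.J6H77.WS.NumW
import Pool.Agent.TH306.N4.Upper

/-! The upper bound with weights: the argument of `Pool.Agent.TH306.N4.upper_of` with different
multiplicities at the points. -/

set_option autoImplicit false

open MvPolynomial Module Filter Topology

namespace Pool.Agent.J6H77.WS

open Pool.Agent.TH279.GR Pool.Agent.TH306.N4

variable {a b : ℕ}

/-- a section with high multiplicities -/
theorem exists_sectionW {P : Ideal (Co a b)} {i : Fin (a + 1)} {j : Fin (b + 1)} {FF : Type}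
    [Field FF] [Algebra ℂ FF] {π : Co a b →ₐ[ℂ] FF} {m : ℕ}
    (hmem : ∀ ψ, ψ ∈ SecM π m ↔ Sec π m ψ) (hrange : ∀ ψ, Sec π m ψ → ∃ F, π F = ψ)
    (hfin : FiniteDimensional ℂ (SecM π m)) {n : ℕ} {s : Fin n → ℕ} (hs : ∀ q, 1 ≤ s q)
    (w : Fin n → Ix a b → ℂ)
    (hsm : ∀ q, SmoothAt P i j (w q)) (hcard : ∑ q, (s q * (s q + 1) / 2) < finrank ℂ (SecM π m)) :
    ∃ F : Co a b, Sec π m (π F) ∧ π F ≠ 0 ∧ ∀ q, F ∈ chart i j P ⊔ mx (w q) ^ s q := by
  classical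
  let B := Module.finBasis ℂ (SecM π m)
  have hF : ∀ l, ∃ F, π F = (B l : FF) := fun l => hrange _ ((hmem _).1 (B l).2)
  choose F hF using hF
  have hpos : ∀ q, 0 < s q * (s q + 1) / 2 := by
    intro q
    have := hs q
    apply Nat.div_pos _ (by norm_num)
    nlinarith
  have hfq : ∀ q, Module.Finite ℂ (Co a b ⧸ (chart i j P ⊔ mx (w q) ^ s q)) := fun q =>
    Module.finite_of_finrank_pos (by rw [hsm q (s q)]; exact hpos q)
  let T : (Fin (finrank ℂ (SecM π m)) → ℂ) →ₗ[ℂ]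
      (∀ q, Co a b ⧸ (chart i j P ⊔ mx (w q) ^ s q)) :=
    LinearMap.pi fun q => (Ideal.Quotient.mkₐ ℂ (chart i j P ⊔ mx (w q) ^ s q)).toLinearMap.comp
      (Fintype.linearCombination ℂ F)
  have hker : LinearMap.ker T ≠ ⊥ := by
    apply LinearMap.ker_ne_bot_of_finrank_lt
    rw [Module.finrank_pi_fintype, Module.finrank_fin_fun]
    rw [Finset.sum_congr rfl fun q _ => hsm q (s q)]
    exact hcard
  obtain ⟨c, hc, hc0⟩ := Submodule.exists_mem_ne_zero_of_ne_bot hker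
  have hπ : π (Fintype.linearCombination ℂ F c) = ((∑ l, c l • B l : SecM π m) : FF) := by
    rw [Fintype.linearCombination_apply, map_sum, Submodule.coe_sum]
    refine Finset.sum_congr rfl fun l _ => ?_
    rw [map_smul, hF, Submodule.coe_smul]
  refine ⟨Fintype.linearCombination ℂ F c, ?_, ?_, fun q => ?_⟩
  · rw [hπ]
    exact (hmem _).1 (Subtype.mem _)
  · rw [hπ]
    intro h0
    apply hc0
    have h1 : ∑ l, c l • B l = 0 := Subtype.ext h0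
    funext l
    exact Fintype.linearIndependent_iff.1 B.linearIndependent c h1 l
  · have h1 := congrFun (LinearMap.mem_ker.1 hc) q
    exact Ideal.Quotient.eq_zero_iff_mem.1 h1

/-- numerics of the upper bound -/
theorem numUW {n : ℕ} (hn : 1 ≤ n) {y : Fin n → ℝ} (hy : ∀ q, 0 < y q) {δ : ℝ} (hδ : 0 < δ)
    {d : ℕ → ℕ}
    (hd : ∀ ε : ℝ, 0 < ε → ∃ m₀ : ℕ, ∀ m, m₀ ≤ m → (δ - ε) * (m : ℝ) ^ 2 ≤ 2 * d m)
    {ε : ℝ} (hε : 0 < ε) :
    ∃ (m : ℕ) (s : Fin n → ℕ), (∀ q, 1 ≤ s q) ∧ ∑ q, (s q * (s q + 1) / 2) < d m ∧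
      m * δ ≤ (√(δ / mass y) + ε) * ∑ q, y q * s q := by
  have hn0 : (0 : ℝ) < n := by exact_mod_cast hn
  have hM0 : 0 < mass y := mass_pos hn hy
  obtain ⟨M, hM⟩ : ∃ M, M = mass y := ⟨_, rfl⟩
  rw [← hM] at hM0 ⊢
  obtain ⟨r, hr⟩ : ∃ r : ℝ, r = √(δ / M) := ⟨_, rfl⟩
  have hr0 : 0 < r := by rw [hr]; exact Real.sqrt_pos.2 (by positivity)
  have hrr : r * r * M = δ := by
    rw [hr, Real.mul_self_sqrt (by positivity)]
    field_simp
  obtain ⟨c, hc⟩ : ∃ c : ℝ, c = δ / ((r + ε) * M) := ⟨_, rfl⟩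
  have hc0 : 0 < c := by rw [hc]; positivity
  have hcδ : (r + ε) * M * c = δ := by rw [hc]; field_simp
  have hcn : M * c ^ 2 < δ := by
    have h1 : M * c ^ 2 * ((r + ε) * (r + ε) * M) = δ ^ 2 := by
      calc M * c ^ 2 * ((r + ε) * (r + ε) * M) = ((r + ε) * M * c) ^ 2 := by ring
        _ = δ ^ 2 := by rw [hcδ]
    have h2 : δ < (r + ε) * (r + ε) * M := by
      have h21 : r * r * M < (r + ε) * (r + ε) * M := by
        apply mul_lt_mul_of_pos_right _ hM0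
        nlinarith
      rwa [hrr] at h21
    by_contra hcon
    push Not at hcon
    have h3 : δ * ((r + ε) * (r + ε) * M) ≤ M * c ^ 2 * ((r + ε) * (r + ε) * M) :=
      mul_le_mul_of_nonneg_right hcon (by positivity)
    rw [h1] at h3
    have h4 : δ * δ < δ * ((r + ε) * (r + ε) * M) := mul_lt_mul_of_pos_left h2 hδ
    nlinarith
  obtain ⟨κ, hκ⟩ : ∃ κ : ℝ, κ = δ - M * c ^ 2 := ⟨_, rfl⟩
  have hκ0 : 0 < κ := by rw [hκ]; linarith
  obtain ⟨Y, hY⟩ : ∃ Y : ℝ, Y = ∑ q, y q := ⟨_, rfl⟩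
  have hY0 : 0 ≤ Y := by rw [hY]; exact Finset.sum_nonneg fun q _ => (hy q).le
  obtain ⟨m₀, hm₀⟩ := hd (κ / 2) (by positivity)
  obtain ⟨m₁, hm₁⟩ := exists_nat_gt ((3 * Y * c + 2 * n) * 2 / κ)
  obtain ⟨m, hm⟩ : ∃ m, m = max m₀ (max m₁ 1) := ⟨_, rfl⟩
  have hmm₀ : m₀ ≤ m := by rw [hm]; exact le_max_left _ _
  have hmm₁ : m₁ ≤ m := by rw [hm]; exact (le_max_left _ _).trans (le_max_right _ _)
  have hm1 : 1 ≤ m := by rw [hm]; exact (le_max_right _ _).trans (le_max_right _ _)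
  have hm1' : (1 : ℝ) ≤ m := by exact_mod_cast hm1
  have hmm₁' : (m₁ : ℝ) ≤ m := by exact_mod_cast hmm₁
  have h1 := hm₀ m hmm₀
  obtain ⟨s, hs⟩ : ∃ s : Fin n → ℕ, s = fun q => ⌈y q * (c * m)⌉₊ := ⟨_, rfl⟩
  have hs1 : ∀ q, y q * (c * m) ≤ s q := fun q => by rw [hs]; exact Nat.le_ceil _
  have hs2 : ∀ q, (s q : ℝ) < y q * (c * m) + 1 := fun q => by
    rw [hs]
    exact Nat.ceil_lt_add_one (by have := hy q; positivity)
  have hs3 : ∀ q, 1 ≤ s q := by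
    intro q
    rw [hs]
    have := hy q
    exact Nat.one_le_ceil_iff.2 (by positivity)
  refine ⟨m, s, hs3, ?_, ?_⟩
  · have h2 : ∑ q, ((s q : ℝ) * (s q + 1)) < 2 * d m := by
      refine lt_of_lt_of_le ?_ h1
      have h4 : ∑ q, ((s q : ℝ) * (s q + 1)) ≤
          ∑ q, (y q * (c * m) + 1) * (y q * (c * m) + 2) := by
        refine Finset.sum_le_sum fun q _ => ?_
        have := hy q
        apply mul_le_mul (hs2 q).le (by linarith [hs2 q]) (by positivity) (by positivity)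
      refine lt_of_le_of_lt h4 ?_
      have h5 : (3 * Y * c + 2 * n) * 2 < κ * m := by
        have h51 : (3 * Y * c + 2 * n) * 2 / κ < m := lt_of_lt_of_le hm₁ hmm₁'
        rw [div_lt_iff₀ hκ0] at h51
        linarith
      have h6 : (3 * Y * c + 2 * n) * m < κ / 2 * (m : ℝ) ^ 2 := by
        have h61 : (3 * Y * c + 2 * n) < κ * m / 2 := by linarith
        have h62 : (3 * Y * c + 2 * n) * m < κ * m / 2 * m :=
          mul_lt_mul_of_pos_right h61 (by linarith)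
        calc (3 * Y * c + 2 * n) * m < κ * m / 2 * m := h62
          _ = κ / 2 * (m : ℝ) ^ 2 := by ring
      have h7 : ∑ q, (y q * (c * m) + 1) * (y q * (c * m) + 2) =
          M * c ^ 2 * (m : ℝ) ^ 2 + 3 * Y * c * m + 2 * n := by
        have h70 : ∀ q, (y q * (c * m) + 1) * (y q * (c * m) + 2) =
            y q ^ 2 * (c ^ 2 * (m : ℝ) ^ 2) + y q * (3 * c * m) + 2 := fun q => by ring
        rw [Finset.sum_congr rfl fun q _ => h70 q, Finset.sum_add_distrib,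
          Finset.sum_add_distrib, ← Finset.sum_mul, ← Finset.sum_mul, ← hY]
        have h71 : ∑ q, y q ^ 2 = M := by rw [hM]; rfl
        rw [h71]
        simp only [Finset.sum_const, Finset.card_univ, Fintype.card_fin, nsmul_eq_mul]
        ring
      have h8 : 2 * (n : ℝ) ≤ 2 * n * m := by
        have : 0 ≤ 2 * (n : ℝ) * (m - 1) := by
          apply mul_nonneg (by positivity)
          linarith
        linarith
      have h9 : (δ - κ / 2) * (m : ℝ) ^ 2 = M * c ^ 2 * (m : ℝ) ^ 2 + κ / 2 * (m : ℝ) ^ 2 := by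
        rw [hκ]; ring
      rw [h7, h9]
      have h10 : (3 * Y * c + 2 * n) * m = 3 * Y * c * m + 2 * n * m := by ring
      rw [h10] at h6
      linarith
    have h3 : ∑ q, s q * (s q + 1) < 2 * d m := by exact_mod_cast h2
    have h4 : 2 * ∑ q, (s q * (s q + 1) / 2) = ∑ q, s q * (s q + 1) := by
      rw [Finset.mul_sum]
      exact Finset.sum_congr rfl fun q _ =>
        Nat.mul_div_cancel' (Nat.even_mul_succ_self (s q)).two_dvd
    omega
  · rw [← hr]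
    have h2 : M * (c * m) ≤ ∑ q, y q * s q := by
      have h20 : M * (c * m) = ∑ q, y q * (y q * (c * m)) := by
        rw [hM]
        unfold mass
        rw [Finset.sum_mul]
        exact Finset.sum_congr rfl fun q _ => by ring
      rw [h20]
      exact Finset.sum_le_sum fun q _ => mul_le_mul_of_nonneg_left (hs1 q) (hy q).le
    calc (m : ℝ) * δ = (r + ε) * (M * (c * m)) := by rw [← hcδ]; ring
      _ ≤ (r + ε) * ∑ q, y q * s q := mul_le_mul_of_nonneg_left h2 (by positivity)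

/-- **The upper bound with weights from its pieces.** -/
theorem upper_ofW (h0 : S0) (h7 : S7) (hu2 : U2) (hu3 : U3) (hu5 : U5) (hu6 : U6)
    (a b : ℕ) (P : Ideal (Co a b)) (α β γ : ℕ) (hX : Surf P α β γ) (hnef : Nef P)
    (hL : 2 * β < α + γ) (i : Fin (a + 1)) (j : Fin (b + 1)) (hi : X (Sum.inl i) ∉ P)
    (hj : X (Sum.inr j) ∉ P) (n : ℕ) (hn : 1 ≤ n) (w : Fin n → Ix a b → ℂ)
    (hw : Tuple i j P w) (hsm : ∀ q, SmoothAt P i j (w q)) (y : Fin n → ℝ) (hy : ∀ q, 0 < y q)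
    (ε : ℝ) (hε : 0 < ε) :
    ∃ (Q : Ideal (Co a b)) (dA dB : ℝ) (μ : Fin n → ℝ), P ≤ Q ∧ Curv Q dA dB ∧
      (∀ q, IsMult i j Q (w q) (μ q)) ∧ (∀ q, 0 ≤ μ q) ∧ 0 < ∑ q, y q * μ q ∧
      dA - dB ≤ (√(((α : ℝ) - 2 * β + γ) / mass y) + ε) * ∑ q, y q * μ q := by
  classical
  obtain ⟨FF, _, _, π, hπ⟩ := Pool.Agent.TH611.M5.exists_Mod hX.prime hX.hom hi hj
  obtain ⟨hfin, hgr⟩ := h7 a b P α β γ hX hnef i j FF π hπ
  have hn0 : (0 : ℝ) < n := by exact_mod_cast hn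
  have hM0 : 0 < mass y := mass_pos hn hy
  obtain ⟨δ, hδ⟩ : ∃ δ : ℝ, δ = (α : ℝ) - 2 * β + γ := ⟨_, rfl⟩
  have hδ0 : 0 < δ := by
    have : ((2 * β : ℕ) : ℝ) < ((α + γ : ℕ) : ℝ) := by exact_mod_cast hL
    push_cast at this
    rw [hδ]
    linarith
  rw [← hδ] at hgr ⊢
  obtain ⟨m, s, hs, hcard, hms⟩ := numUW hn hy hδ0 (d := fun m => finrank ℂ (SecM π m)) hgr hε
  obtain ⟨hmem, -, hrange⟩ := h0 a b P i j FF π hπ m
  obtain ⟨F, hF1, hF2, hF3⟩ := exists_sectionW hmem hrange (hfin m) hs w hsm hcard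
  obtain ⟨hN1, hN2, hN3, hN4⟩ := hu2 a b P i j FF π hπ m F hF1 hF2
  obtain ⟨l, hl1, hl2⟩ := Pool.Agent.TH279.GR.G1.chain_exists hN1
    (fun _ _ _ => trivial : BHom (⊤ : Ideal (Co a b))) le_top
  have hlt : ∀ t ∈ l, P < t.1 := fun t ht => lt_of_lt_of_le hN2 (hl2 t ht).2.2
  -- degrees
  have hdeg : ∀ Q : Ideal (Co a b), ∃ d : ℕ × ℕ, (Q.IsPrime → BHom Q → P < Q → Rel Q →
      ∃ c0 : ℤ, Lin Q d.1 d.2 c0) ∧ (¬ Rel Q → d.1 = 0 ∧ d.2 = 0) := by
    intro Q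
    by_cases h : Q.IsPrime ∧ BHom Q ∧ P < Q ∧ Rel Q
    · obtain ⟨dA, dB, c, hc⟩ := Pool.Agent.TH279.GR.G5.surf_lin hX h.1 h.2.1 h.2.2.2 h.2.2.1
      exact ⟨(dA, dB), fun _ _ _ _ => ⟨c, hc⟩, fun hr => absurd h.2.2.2 hr⟩
    · exact ⟨(0, 0), fun h1 h2 h3 h4 => absurd ⟨h1, h2, h3, h4⟩ h, fun _ => ⟨rfl, rfl⟩⟩
  choose d hd1 hd2 using hdeg
  -- multiplicities
  have hch : ∀ q, ∀ f ∈ chart i j P, eval (w q) f = 0 := by
    intro q f hf
    have h1 : chart i j P ≤ RingHom.ker (eval (w q)) := by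
      refine sup_le (fun g hg => (hw q).2.2 g hg) ?_
      rw [Ideal.span_le]
      rintro g (rfl | rfl)
      · simp [RingHom.mem_ker, (hw q).1]
      · simp [RingHom.mem_ker, (hw q).2.1]
    exact h1 hf
  have hmul : ∀ (q : Fin n) (Q : Ideal (Co a b)), ∃ μ : ℝ, Q.IsPrime → BHom Q → P < Q →
      0 ≤ μ ∧ IsMult i j Q (w q) μ ∧
        ((¬ Rel Q ∨ ∃ c0 : ℤ, Lin Q 0 0 c0) → μ = 0) := by
    intro q Q
    by_cases h : Q.IsPrime ∧ BHom Q ∧ P < Q
    · obtain ⟨⟨μ, hμ0, hμ⟩, h2⟩ := hu6 a b P α β γ hX i j (w q) (hch q) (hsm q) Q h.1 h.2.1 h.2.2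
      exact ⟨μ, fun _ _ _ => ⟨hμ0, hμ, fun h3 => tendsto_nhds_unique hμ (h2 h3)⟩⟩
    · exact ⟨0, fun h1 h2 h3 => absurd ⟨h1, h2, h3⟩ h⟩
  choose μ hμ using hmul
  have hsum := hu3 a b P α β γ hX m _ hN1 hN2 hN4 l hl1 (fun Q => (d Q).1) (fun Q => (d Q).2)
    (fun t ht hr => hd1 t.1 (hl2 t ht).1 (hl2 t ht).2.1 (hlt t ht) hr)
    (fun t _ hr => hd2 t.1 hr)
  rw [← hδ] at hsum
  have hmult : ∀ q, (s q : ℝ) ≤ (l.map fun t => μ q t.1).sum := fun q =>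
    hu5 a b P i j (w q) hX.prime hX.hom (hch q) (hsm q) (s q) F (hF3 q)
      (fun h => hF2 ((hπ.ker F).2 h)) _ hN1 hN3 l hl1 (μ q)
      (fun t ht => (hμ q t.1 (hl2 t ht).1 (hl2 t ht).2.1 (hlt t ht)).2.1)
  have htot : ∑ q, y q * (s q : ℝ) ≤ (l.map fun t => ∑ q, y q * μ q t.1).sum := by
    rw [← list_sum_comm l fun q t => y q * μ q t.1]
    refine Finset.sum_le_sum (s := Finset.univ) fun q _ => ?_
    rw [List.sum_map_mul_left]
    exact mul_le_mul_of_nonneg_left (hmult q) (hy q).le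
  have hμ0 : ∀ t ∈ l, 0 ≤ ∑ q, y q * μ q t.1 := fun t ht => Finset.sum_nonneg fun q _ =>
    mul_nonneg (hy q).le (hμ q t.1 (hl2 t ht).1 (hl2 t ht).2.1 (hlt t ht)).1
  have hd0 : ∀ t ∈ l, (0 : ℝ) ≤ ((d t.1).1 : ℝ) - (d t.1).2 := by
    intro t ht
    by_cases hr : Pool.Agent.TH279.GR.Rel t.1
    · obtain ⟨c0, hc0⟩ := hd1 t.1 (hl2 t ht).1 (hl2 t ht).2.1 (hlt t ht) hr
      have h1 := Pool.Agent.TH279.GR.G5.nef_le hnef (hlt t ht).le (hl2 t ht).1 (hl2 t ht).2.1 hc0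
      have h2 : ((d t.1).2 : ℝ) ≤ (d t.1).1 := by exact_mod_cast h1
      linarith
    · rw [(hd2 t.1 hr).1, (hd2 t.1 hr).2]
      simp
  have hρ : 0 < √(δ / mass y) + ε := by positivity
  -- the good component
  obtain ⟨t, ht, ht1, ht2⟩ : ∃ t ∈ l, 0 < ∑ q, y q * μ q t.1 ∧
      ((d t.1).1 : ℝ) - (d t.1).2 ≤ (√(δ / mass y) + ε) * ∑ q, y q * μ q t.1 := by
    by_contra hcon
    push Not at hcon
    have h1 : ∀ t ∈ l, (√(δ / mass y) + ε) * ∑ q, y q * μ q t.1 ≤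
        ((d t.1).1 : ℝ) - (d t.1).2 := by
      intro t ht
      rcases (hμ0 t ht).eq_or_lt with h | h
      · rw [← h, mul_zero]
        exact hd0 t ht
      · exact (hcon t ht h).le
    have hs0 : 0 < ∑ q, y q * (s q : ℝ) := by
      have : Nonempty (Fin n) := ⟨⟨0, hn⟩⟩
      refine Finset.sum_pos (fun q _ => ?_) Finset.univ_nonempty
      have h1 : (0 : ℝ) < s q := by exact_mod_cast hs q
      exact mul_pos (hy q) h1
    have h2 : ∃ t ∈ l, 0 < ∑ q, y q * μ q t.1 := by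
      by_contra hcon2
      push Not at hcon2
      have h3 : (l.map fun t => ∑ q, y q * μ q t.1).sum ≤ (l.map fun _ => (0 : ℝ)).sum :=
        List.sum_le_sum fun t ht => hcon2 t ht
      have h4 : (l.map fun _ => (0 : ℝ)).sum = 0 := by simp
      rw [h4] at h3
      linarith
    have h3 : (l.map fun t => (√(δ / mass y) + ε) * ∑ q, y q * μ q t.1).sum <
        (l.map fun t => ((d t.1).1 : ℝ) - (d t.1).2).sum := by
      obtain ⟨t, ht, ht1⟩ := h2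
      exact List.sum_lt_sum _ _ h1 ⟨t, ht, hcon t ht ht1⟩
    rw [List.sum_map_mul_left, hsum] at h3
    have h4 := mul_le_mul_of_nonneg_left htot hρ.le
    linarith
  have hp := (hl2 t ht).1
  have hb := (hl2 t ht).2.1
  have hPt := hlt t ht
  have hμt : ¬ (¬ Rel t.1 ∨ ∃ c0 : ℤ, Lin t.1 0 0 c0) := by
    intro h
    have h1 : ∑ q, y q * μ q t.1 = 0 := Finset.sum_eq_zero fun q _ => by
      rw [(hμ q t.1 hp hb hPt).2.2 h, mul_zero]
    rw [h1] at ht1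
    exact lt_irrefl _ ht1
  push Not at hμt
  obtain ⟨hrel, hnl⟩ := hμt
  obtain ⟨c0, hc0⟩ := hd1 t.1 hp hb hPt hrel
  have hpos : 0 < (d t.1).1 + (d t.1).2 := by
    by_contra h
    have h1 : (d t.1).1 = 0 := by omega
    have h2 : (d t.1).2 = 0 := by omega
    rw [h1, h2] at hc0
    exact hnl c0 hc0
  exact ⟨t.1, (d t.1).1, (d t.1).2, fun q => μ q t.1, hPt.le,
    Pool.Agent.TH279.GR.G5.Curv.of_lin hp hb hc0 hpos,
    fun q => (hμ q t.1 hp hb hPt).2.1, fun q => (hμ q t.1 hp hb hPt).1, ht1, ht2⟩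

end Pool.Agent.J6H77.WS
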