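import Pool.Agent.J6H77.WS.LowerW
import Pool.Agent.J6H77.WS.UpperW
import Pool.Agent.J6H56.WS.NotAtt

/-! Weighted multi-point Seshadri constants: the equality. -/

set_option autoImplicit false

open MvPolynomial Module Filter Topology

namespace Pool.Agent.J6H77.WS

open Pool.Agent.TH279.GR Pool.Agent.TH880.NB Pool.Agent.TH176.Nag Pool.Agent.TH306.N4
open Pool.Agent.TH611.M5 Pool.Agent.J6H56.WS Pool.Agent.Y799.SE

variable {a b : ℕ}

/-- the ratios `L · C / ∑ y_q mult_{w_q} C` over the integral curves through at least one of the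
points -/
def ratiosW {n : ℕ} (i : Fin (a + 1)) (j : Fin (b + 1)) (P : Ideal (Co a b))
    (w : Fin n → Ix a b → ℂ) (y : Fin n → ℝ) : Set ℝ :=
  {x | ∃ (Q : Ideal (Co a b)) (dA dB : ℝ) (m : Fin n → ℝ), P ≤ Q ∧ Curv Q dA dB ∧
    (∀ q, IsMult i j Q (w q) (m q)) ∧ 0 < ∑ q, y q * m q ∧ x = (dA - dB) / ∑ q, y q * m q}

theorem mult_nonneg {i : Fin (a + 1)} {j : Fin (b + 1)} {Q : Ideal (Co a b)} {w : Ix a b → ℂ}
    {μ : ℝ} (h : IsMult i j Q w μ) : 0 ≤ μ := ge_of_tendsto' h fun K => by positivity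

/-- **the equality, for all weights at once** -/
theorem equalityW {P : Ideal (Co a b)} {α β γ δ : ℕ} (hX : Surf P α β γ) (hnef : Nef P)
    (hδ : δ + 2 * β = α + γ) (hδ1 : 1 ≤ δ) {i : Fin (a + 1)} {j : Fin (b + 1)}
    (hi : X (Sum.inl i) ∉ P) (hj : X (Sum.inr j) ∉ P)
    {FF : Type} [Field FF] [Algebra ℂ FF] {π : Co a b →ₐ[ℂ] FF} (hπ : Mod P i j π)
    {k : ℕ} {g₁ g₂ : FF} (hP : Pencil π k g₁ g₂) (n : ℕ) (hn1 : 1 ≤ n) :
    ∃ H : ℕ → MvPolynomial (Fin n × Ix a b) ℂ,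
      (∃ w : Fin n → Ix a b → ℂ, Tuple i j P w ∧
        ∀ k, eval (fun p => w p.1 p.2) (H k) ≠ 0) ∧
      ∀ w : Fin n → Ix a b → ℂ, Tuple i j P w →
        (∀ k, eval (fun p => w p.1 p.2) (H k) ≠ 0) →
        Function.Injective w ∧
        ∀ y : Fin n → ℝ, (∀ q, 0 < y q) →
          AW y (√(mass y) * √((k ^ 2 * δ : ℕ) : ℝ)) 0 ((k ^ 2 * δ : ℕ) : ℝ) →
          IsGLB (ratiosW i j P w y) (√((δ : ℝ) / mass y)) ∧
          ∀ (lam : ℝ) (c : Fin n → ℕ), 0 < lam → (∀ q, y q = lam * c q) →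
            ¬ IsSquare (δ * ∑ q, c q ^ 2) → √((δ : ℝ) / mass y) ∉ ratiosW i j P w y := by
  classical
  have hδr : ((α : ℝ) - 2 * β + γ) = δ := by
    have : ((δ + 2 * β : ℕ) : ℝ) = ((α + γ : ℕ) : ℝ) := by rw [hδ]
    push_cast at this
    linarith
  obtain ⟨H, ⟨w0, hw0, hw0H⟩, hH⟩ := lowerW hX hnef hδ hδ1 hi hj hπ hP n hn1
  obtain ⟨h, hh, hsm⟩ := Pool.Agent.TH471.N4.u4 j3 a b P α β γ hX i j hi hj
  have hJ := Pool.Agent.TH611.M5.chart_prime hX.prime hX.hom hi hj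
  obtain ⟨z, hz, hzh⟩ := exists_point_countable (ι := Unit) (chart i j P) hJ (fun _ => h)
    (fun _ => hh)
  let H' : ℕ → MvPolynomial (Fin n × Ix a b) ℂ := fun k =>
    Nat.casesOn k (∏ q : Fin n, rename (fun t => (q, t)) h) H
  have hev : ∀ w : Fin n → Ix a b → ℂ, eval (fun p => w p.1 p.2) (H' 0) =
      ∏ q, eval (w q) h := by
    intro w
    show eval (fun p => w p.1 p.2) (∏ q : Fin n, rename (fun t => (q, t)) h) = _
    rw [map_prod]
    refine Finset.prod_congr rfl fun q _ => ?_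
    rw [eval_rename]
    rfl
  obtain ⟨w1, hw1, hw1H⟩ := exists_tuple_countable (chart i j P) hJ H' (fun k => by
    rcases k with _ | k
    · refine ⟨fun _ => z, fun _ => hz, ?_⟩
      exact ne_of_eq_of_ne (hev fun _ => z) (Finset.prod_ne_zero_iff.2 fun q _ => hzh ())
    · exact ⟨w0, tuple_iff.1 hw0, hw0H k⟩)
  refine ⟨H', ⟨w1, tuple_iff.2 hw1, hw1H⟩, fun w hw hwH => ?_⟩
  obtain ⟨hinj, hlow⟩ := hH w hw (fun k => hwH (k + 1))
  have hsmq : ∀ q, SmoothAt P i j (w q) := by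
    intro q
    refine hsm (w q) (tuple_iff.1 hw q) ?_
    have h3 := hwH 0
    rw [hev] at h3
    exact Finset.prod_ne_zero_iff.1 h3 q (Finset.mem_univ q)
  refine ⟨hinj, fun y hy hAW => ?_⟩
  have hlow' := hlow y hy hAW
  have hup := upper_ofW Pool.Agent.TH880.N4.s0 Pool.Agent.TH279.GR.S7b.s7 u2
    (u3_of Pool.Agent.TH471.N4.v3) Pool.Agent.TH471.N4.u5 Pool.Agent.TH611.M5.u6
    a b P α β γ hX hnef (by omega) i j hi hj n hn1 w hw hsmq y hy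
  rw [hδr] at hup
  refine ⟨⟨?_, ?_⟩, fun lam c hlam hc hsq => not_attainedW hX hnef hw hsmq hlam hc hsq⟩
  · rintro x ⟨Q, dA, dB, μ, hPQ, hQ, hμ, hpos, rfl⟩
    rw [le_div_iff₀ hpos]
    exact hlow' Q dA dB hPQ hQ μ hμ
  · intro x hx
    refine le_of_forall_pos_le_add fun ε hε => ?_
    obtain ⟨Q, dA, dB, μ, hPQ, hQ, hμ, -, hpos, hle⟩ := hup ε hε
    refine (hx ⟨Q, dA, dB, μ, hPQ, hQ, hμ, hpos, rfl⟩).trans ?_
    rw [div_le_iff₀ hpos]
    exact hle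

/-- the case `L² = 0` -/
theorem equalityW_zero {P : Ideal (Co a b)} {α β γ : ℕ} (hX : Surf P α β γ) (hnef : Nef P)
    (hL : 2 * β = α + γ) {n : ℕ} (hn : 1 ≤ n) {i : Fin (a + 1)} {j : Fin (b + 1)}
    (hi : X (Sum.inl i) ∉ P) (hj : X (Sum.inr j) ∉ P) :
    ∃ H : ℕ → MvPolynomial (Fin n × Ix a b) ℂ,
      (∃ w : Fin n → Ix a b → ℂ, Tuple i j P w ∧
        ∀ k, eval (fun p => w p.1 p.2) (H k) ≠ 0) ∧
      ∀ w : Fin n → Ix a b → ℂ, Tuple i j P w →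
        (∀ k, eval (fun p => w p.1 p.2) (H k) ≠ 0) →
        Function.Injective w ∧ ∀ y : Fin n → ℝ, (∀ q, 0 < y q) →
          IsGLB (ratiosW i j P w y) 0 := by
  obtain ⟨H, h1, h2⟩ := Pool.Agent.Y799.SE.equality_zero hX hnef hL hn hi hj
  refine ⟨H, h1, fun w hw hwH => ?_⟩
  obtain ⟨h3, h4, h5⟩ := h2 w hw hwH
  refine ⟨h3, fun y hy => ⟨?_, fun x hx => ?_⟩⟩
  · rintro x ⟨Q, dA, dB, μ, hPQ, hQ, hμ, hpos, rfl⟩
    have := hnef Q dA dB hPQ hQ
    exact div_nonneg (by linarith) hpos.le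
  · rw [zero_div, Real.sqrt_zero] at h5
    -- the smallest weight
    have : Nonempty (Fin n) := ⟨⟨0, hn⟩⟩
    obtain ⟨q0, hq0⟩ := Finite.exists_min y
    by_contra hcon
    push Not at hcon
    have hy0 := hy q0
    have h6 : y q0 * x ∈ lowerBounds (ratios i j P w) := by
      rintro t ⟨Q, dA, dB, μ, hPQ, hQ, hμ, hpos, rfl⟩
      have h7 : y q0 * ∑ q, μ q ≤ ∑ q, y q * μ q := by
        rw [Finset.mul_sum]
        exact Finset.sum_le_sum fun q _ => mul_le_mul_of_nonneg_right (hq0 q) (mult_nonneg (hμ q))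
      have h8 : 0 < ∑ q, y q * μ q := lt_of_lt_of_le (mul_pos hy0 hpos) h7
      have h9 := hx ⟨Q, dA, dB, μ, hPQ, hQ, hμ, h8, rfl⟩
      rw [le_div_iff₀ h8] at h9
      rw [le_div_iff₀ hpos]
      calc y q0 * x * ∑ q, μ q = x * (y q0 * ∑ q, μ q) := by ring
        _ ≤ x * ∑ q, y q * μ q := mul_le_mul_of_nonneg_left h7 hcon.le
        _ ≤ dA - dB := h9
    have h7 := h5 h6
    have : 0 < y q0 * x := mul_pos hy0 hcon
    linarith

end Pool.Agent.J6H77.WS
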