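import Pool.Agent.TH266.NS.Main

/-!
# The nodal key lemma in rank form, for real weights

`Pool.Agent.TH266.NS.key` for the weighted planes of real weight `ρ ≥ 3 / 2`: the exponents
`(a, b)` with `a, b ≥ 0` and `a + ρ b ≤ e`.
-/

set_option autoImplicit false

namespace Pool.Agent.J6H77.WS

open Pool.Agent.TH603.EL Pool.Agent.TH880.NB Pool.Agent.TH176.Nag Pool.Agent.TH266.NS

namespace FijR

variable {F : Type} [Field F]

/-- combinations of the monomials of weight at most `e` -/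
noncomputable def WW (x y : HR F) (ρ e : ℝ) : AddSubmonoid (HR F) :=
  AddSubmonoid.closure {f | ∃ (c : HK F) (a b : ℕ), (a : ℝ) + ρ * b ≤ e ∧
    f = incl c * (x ^ a * y ^ b)}

theorem WW_gen {x y : HR F} {ρ e : ℝ} (c : HK F) (a b : ℕ) (h : (a : ℝ) + ρ * b ≤ e) :
    incl c * (x ^ a * y ^ b) ∈ WW x y ρ e :=
  AddSubmonoid.subset_closure ⟨c, a, b, h, rfl⟩

theorem WW_mono {x y : HR F} {ρ e e' : ℝ} (h : e ≤ e') : WW x y ρ e ≤ WW x y ρ e' := by
  unfold WW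
  refine AddSubmonoid.closure_mono ?_
  rintro f ⟨c, a, b, h1, rfl⟩
  exact ⟨c, a, b, h1.trans h, rfl⟩

theorem WW_mul {x y : HR F} {ρ e e' : ℝ} {f g : HR F} (hf : f ∈ WW x y ρ e)
    (hg : g ∈ WW x y ρ e') : f * g ∈ WW x y ρ (e + e') := by
  unfold WW at hf
  induction hf using AddSubmonoid.closure_induction with
  | mem f hf =>
    obtain ⟨c, a, b, h1, rfl⟩ := hf
    unfold WW at hg
    induction hg using AddSubmonoid.closure_induction with
    | mem g hg =>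
      obtain ⟨c', a', b', h2, rfl⟩ := hg
      have e1 : incl c * (x ^ a * y ^ b) * (incl c' * (x ^ a' * y ^ b')) =
          incl (c * c') * (x ^ (a + a') * y ^ (b + b')) := by
        rw [map_mul, pow_add, pow_add]
        ring
      rw [e1]
      refine WW_gen _ _ _ ?_
      push_cast
      linarith
    | zero => rw [mul_zero]; exact zero_mem _
    | add g g' _ _ h h' => rw [mul_add]; exact add_mem h h'
  | zero => rw [zero_mul]; exact zero_mem _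
  | add f f' _ _ h h' => rw [add_mul]; exact add_mem h h'

theorem WW_one (x y : HR F) (ρ : ℝ) : (1 : HR F) ∈ WW x y ρ 0 := by
  have h := WW_gen (x := x) (y := y) (ρ := ρ) (e := 0) (1 : HK F) 0 0 (by simp)
  simpa using h

theorem WW_pow {x y : HR F} {ρ e : ℝ} {f : HR F} (hf : f ∈ WW x y ρ e) (n : ℕ) :
    f ^ n ∈ WW x y ρ (n * e) := by
  induction n with
  | zero => simpa using WW_one x y ρ
  | succ n ih =>
    rw [pow_succ]
    have h := WW_mul ih hf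
    have e1 : (n : ℝ) * e + e = ((n + 1 : ℕ) : ℝ) * e := by push_cast; ring
    rwa [e1] at h

theorem exists_of_WW {x y : HR F} {ρ e : ℝ} {f : HR F} (hf : f ∈ WW x y ρ e) :
    ∃ P : (ℤ × ℤ) →₀ HK F, (↑P.support : Set (ℤ × ℤ)) ⊆
      {m | 0 ≤ m.1 ∧ 0 ≤ m.2 ∧ (m.1 : ℝ) + ρ * m.2 ≤ e} ∧ evU x y P = f := by
  classical
  unfold WW at hf
  induction hf using AddSubmonoid.closure_induction with
  | mem f hf =>
    obtain ⟨c, a, b, h1, rfl⟩ := hf
    refine ⟨Finsupp.single ((a : ℤ), (b : ℤ)) c, ?_, ?_⟩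
    · intro m hm
      have hm' := Finsupp.support_single_subset hm
      rw [Finset.mem_singleton] at hm'
      subst hm'
      refine ⟨by simp, by simp, ?_⟩
      push_cast
      exact h1
    · rw [Fij.evU_single]
      simp
  | zero => exact ⟨0, by simp, by simp [evU]⟩
  | add f g _ _ h h' =>
    obtain ⟨P, hP, rfl⟩ := h
    obtain ⟨Q, hQ, rfl⟩ := h'
    refine ⟨P + Q, ?_, Fij.evU_add x y P Q⟩
    intro m hm
    rcases Finset.mem_union.1 (Finsupp.support_add hm) with h | h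
    · exact hP h
    · exact hQ h

theorem hh_mem (x y : HR F) {ρ : ℝ} (hρ : 3 / 2 ≤ ρ) : hh x y ∈ WW x y ρ (2 * ρ) := by
  have e1 : hh x y = incl 1 * (x ^ 0 * y ^ 2) + incl (-1) * (x ^ 2 * y ^ 0) +
      incl (-1) * (x ^ 3 * y ^ 0) + incl (HahnSeries.single 1 1 : HK F) * (x ^ 0 * y ^ 0) +
      incl (HahnSeries.single 1 1 : HK F) * (x ^ 1 * y ^ 0) := by
    unfold hh
    rw [Fij.incl_t, map_neg, map_one]
    ring
  rw [e1]
  refine add_mem (add_mem (add_mem (add_mem ?_ ?_) ?_) ?_) ?_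
  · exact WW_gen _ _ _ (by push_cast; linarith)
  · exact WW_gen _ _ _ (by push_cast; linarith)
  · exact WW_gen _ _ _ (by push_cast; linarith)
  · exact WW_gen _ _ _ (by push_cast; linarith)
  · exact WW_gen _ _ _ (by push_cast; linarith)

theorem gg_mem (x y : HR F) {ρ : ℝ} (hρ : 3 / 2 ≤ ρ) {E : ℕ} (a : ℕ → HK F) :
    gg x y (2 * E) a ∈ WW x y ρ (E + ρ - 3 / 2) := by
  unfold gg
  refine sum_mem fun m hm => ?_
  unfold EE at hm
  rw [Finset.mem_erase, Finset.mem_range] at hm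
  obtain ⟨hm1, hm2⟩ := hm
  unfold bb
  split_ifs with h
  · have h1 := WW_gen (x := x) (y := y) (ρ := ρ) (e := E + ρ - 3 / 2) (a m) (m / 2) 0 (by
      have : ((m / 2 : ℕ) : ℝ) ≤ E := by
        have : m / 2 ≤ E := by omega
        exact_mod_cast this
      have h0 : ρ * ((0 : ℕ) : ℝ) = 0 := by simp
      rw [h0]
      linarith)
    simpa using h1
  · have h0 : m % 2 = 1 := Nat.odd_iff.1 (Nat.not_even_iff_odd.1 h)
    have h1 := WW_gen (x := x) (y := y) (ρ := ρ) (e := E + ρ - 3 / 2) (a m) ((m - 3) / 2) 1 (by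
      have : (m - 3) / 2 + 2 ≤ E := by omega
      have : (((m - 3) / 2 : ℕ) : ℝ) + 2 ≤ E := by exact_mod_cast this
      have h0 : ρ * ((1 : ℕ) : ℝ) = ρ := by simp
      rw [h0]
      linarith)
    simpa using h1

end FijR

/-- the open triangle with base `2 e` and slopes `4 ρ τ`, `4 ρ (1 - τ)` -/
def TriR (ρ e τ : ℝ) : Set (ℤ × ℤ) :=
  {m | 0 ≤ m.2 ∧ -(2 * (e - 2 * ρ * m.2) * τ) < m.1 ∧
    (m.1 : ℝ) < 2 * (e - 2 * ρ * m.2) * (1 - τ)}

/-- the exponents of degree at most `e` on the weighted plane of weight `ρ` -/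
def WtdR (ρ e : ℝ) : Set (ℤ × ℤ) :=
  {m | 0 ≤ m.1 ∧ 0 ≤ m.2 ∧ (m.1 : ℝ) + ρ * m.2 ≤ e}

/-- the products `g_i h ^ j` -/
theorem exists_fijR {F : Type} [Field F] {τ s : ℝ} (T : Tube F τ s) (h0 : 0 < τ) (h1 : τ < 1)
    {ρ e : ℝ} (hρ : 3 / 2 ≤ ρ) (he : 0 ≤ e) (hs : 2 * (e + 1) ≤ s) {m : ℤ × ℤ}
    (hm : m ∈ TriR ρ e τ)
    (hex : ∀ (M : ℕ), 1 ≤ M → ∀ i : ℤ, -((M : ℝ) * τ) < i → (i : ℝ) < M * (1 - τ) →
      ∃ a : ℕ → HK F, (∀ m ∈ EE M, Low (a m) (-(M : ℝ))) ∧ Low (gg T.x0 T.y0 M a) 0 ∧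
      (gg T.x0 T.y0 M a).coeff 0 = AddMonoidAlgebra.single (i, 0) 1) :
    ∃ P : (ℤ × ℤ) →₀ HK F, (↑P.support : Set (ℤ × ℤ)) ⊆ WtdR ρ (e + ρ) ∧
      Low (evU T.x T.y P) 0 ∧ (evU T.x T.y P).coeff 0 = AddMonoidAlgebra.single m 1 := by
  obtain ⟨i, j⟩ := m
  obtain ⟨hj, hl, hu⟩ := hm
  simp only at hj hl hu
  obtain ⟨k, rfl⟩ := Int.eq_ofNat_of_zero_le hj
  have hkr : (((k : ℤ)) : ℝ) = k := by simp
  rw [hkr] at hl hu
  obtain ⟨D, hD⟩ : ∃ D : ℝ, D = e - 2 * ρ * k := ⟨_, rfl⟩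
  rw [← hD] at hl hu
  have hpos : (0 : ℝ) < D := by nlinarith
  obtain ⟨E, hE⟩ : ∃ E : ℕ, E = ⌈D⌉₊ := ⟨_, rfl⟩
  have hE0 : D ≤ E := by rw [hE]; exact Nat.le_ceil D
  have hE2 : (E : ℝ) < D + 1 := by rw [hE]; exact Nat.ceil_lt_add_one hpos.le
  have hE1 : 1 ≤ E := by
    rw [hE]
    exact Nat.one_le_ceil_iff.2 hpos
  obtain ⟨a, ha1, ha2, ha3⟩ := hex (2 * E) (by omega) i (by push_cast; nlinarith)
    (by push_cast; nlinarith)
  have hs0 : (0 : ℝ) ≤ s := by linarith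
  have hρk : (0 : ℝ) ≤ 2 * ρ * k := by positivity
  have hEe : (E : ℝ) < e + 1 := by
    have : D ≤ e := by rw [hD]; linarith
    linarith
  have hsM : 0 < s - 2 * (E : ℝ) := by linarith
  -- the sections
  have hG : Low (gg T.x T.y (2 * E) a - gg T.x0 T.y0 (2 * E) a) (s - 2 * (E : ℝ)) := by
    have e1 : gg T.x T.y (2 * E) a - gg T.x0 T.y0 (2 * E) a =
        ∑ m ∈ EE (2 * E), incl (a m) * (bb T.x T.y m - bb T.x0 T.y0 m) := by
      unfold gg
      rw [← Finset.sum_sub_distrib]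
      exact Finset.sum_congr rfl fun m _ => by ring
    rw [e1]
    refine Low.sum _ _ fun m hm => ?_
    have h2 := (ha1 m hm).incl.mul (Fij.low_bb_sub T hs0 m)
    refine h2.mono (le_of_eq ?_)
    push_cast
    ring
  have hG0 : Low (gg T.x T.y (2 * E) a) 0 := by
    have h2 := (hG.mono hsM.le).add ha2
    simpa using h2
  have hGc : (gg T.x T.y (2 * E) a).coeff 0 = AddMonoidAlgebra.single (i, 0) 1 := by
    have h2 : (gg T.x T.y (2 * E) a - gg T.x0 T.y0 (2 * E) a).coeff 0 = 0 := hG 0 hsM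
    rw [HahnSeries.coeff_sub, ha3, sub_eq_zero] at h2
    exact h2
  -- the equation
  obtain ⟨H, hH⟩ : ∃ H : HR F, H =
    incl (HahnSeries.single (-(1 + s)) (-1 : F)) * hh T.x T.y := ⟨_, rfl⟩
  have hu : Low (incl (HahnSeries.single (-(1 + s)) (-1 : F))) (-(1 + s)) :=
    (low_single (-(1 + s)) (-1 : F)).incl
  have hH0 : Low H 0 := by
    have h2 := hu.mul T.low_h
    rw [neg_add_cancel] at h2
    rwa [hH]
  have hHc : H.coeff 0 = AddMonoidAlgebra.single (0, 1) 1 := by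
    have h2 := hu.coeff_mul T.low_h
    rw [neg_add_cancel, Fij.incl_single, HahnSeries.coeff_single_same, T.lead_h,
      AddMonoidAlgebra.single_mul_single, ← Fij.incl_single, ← hH] at h2
    rw [h2]
    simp
  have hf0 : Low (H ^ k * gg T.x T.y (2 * E) a) 0 := by
    have h2 := (hH0.pow_zero' k).mul hG0
    rwa [add_zero] at h2
  have hpow : ∀ n : ℕ, (AddMonoidAlgebra.single ((0 : ℤ), (1 : ℤ)) (1 : F)) ^ n =
      AddMonoidAlgebra.single ((0 : ℤ), (n : ℤ)) (1 : F) := by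
    intro n
    rw [AddMonoidAlgebra.single_pow]
    simp
  have hfc : (H ^ k * gg T.x T.y (2 * E) a).coeff 0 =
      AddMonoidAlgebra.single (i, (k : ℤ)) 1 := by
    have h2 := (hH0.pow_zero' k).coeff_mul hG0
    have h3 := hH0.coeff_pow k
    rw [mul_zero] at h3
    rw [add_zero, h3, hHc, hGc, hpow, AddMonoidAlgebra.single_mul_single] at h2
    rw [h2]
    simp
  have hmem : H ^ k * gg T.x T.y (2 * E) a ∈ FijR.WW T.x T.y ρ (e + ρ) := by
    have g1 : incl (HahnSeries.single (-(1 + s)) (-1 : F)) ∈ FijR.WW T.x T.y ρ 0 := by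
      have h2 := FijR.WW_gen (x := T.x) (y := T.y) (ρ := ρ) (e := 0)
        (HahnSeries.single (-(1 + s)) (-1 : F)) 0 0 (by simp)
      simpa using h2
    have g2 := FijR.WW_mul g1 (FijR.hh_mem T.x T.y hρ)
    rw [← hH] at g2
    have g3 := FijR.WW_mul (FijR.WW_pow g2 k) (FijR.gg_mem T.x T.y hρ (E := E) a)
    refine FijR.WW_mono ?_ g3
    have e2 : (k : ℝ) * (0 + 2 * ρ) = 2 * ρ * k := by ring
    rw [e2]
    have e3 : e = D + 2 * ρ * k := by rw [hD]; ring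
    linarith
  obtain ⟨P, hP1, hP2⟩ := FijR.exists_of_WW hmem
  refine ⟨P, hP1, ?_, ?_⟩
  · rw [hP2]; exact hf0
  · rw [hP2]; exact hfc

/-- **The nodal key lemma in rank form, for real weights.** -/
theorem keyR {ρ τ e : ℝ} (hρ : 3 / 2 ≤ ρ) (h0 : 0 < τ) (h1 : τ < 1 / 2) (he : 0 ≤ e)
    {ι : Type} {w : ι → ℕ} {N : ℕ} (h : Rk w (TriR ρ e τ) N) : Rk w (WtdR ρ (e + ρ)) N := by
  obtain ⟨T, hTS, hTN, K, _, _, x, y, hx, hy, hE⟩ := h
  obtain ⟨s, hs⟩ : ∃ s : ℝ, s = 2 * (e + 1) := ⟨_, rfl⟩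
  have hs0 : 0 < s := by rw [hs]; positivity
  have hτ1 : τ < 1 := by linarith
  rw [← hTN]
  exact Rk_of_family (U := (Pool.Agent.TH793.NS.tube K h0 h1 hs0).x)
    (V := (Pool.Agent.TH793.NS.tube K h0 h1 hs0).y)
    (fun hp hq => (Pool.Agent.TH793.NS.tube K h0 h1 hs0).point hp hq) hx hy T hE
    (S := WtdR ρ (e + ρ)) (fun m hm => ⟨hm.1, hm.2.1⟩) fun m hm =>
      exists_fijR (Pool.Agent.TH793.NS.tube K h0 h1 hs0) h0 hτ1 hρ he (by rw [hs]) (hTS hm)
        fun M hM i hi0 hi1 => exact_mono _ h0 hτ1 hM hi0 hi1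

end Pool.Agent.J6H77.WS
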