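import Pool.Agent.J6H77.WS.NumW
import Pool.Agent.J6H56.WS.S6
import Pool.Agent.J6H56.WS.S9
import Pool.Agent.Y799.SE.Eff

/-! The lower bound with weights, with one very general set for all weights. -/

set_option autoImplicit false

open MvPolynomial Module Filter Topology

namespace Pool.Agent.J6H77.WS

open Pool.Agent.TH279.GR Pool.Agent.TH880.NB Pool.Agent.TH176.Nag Pool.Agent.TH306.N4
open Pool.Agent.TH611.M5 Pool.Agent.J6H56.WS

variable {a b : ℕ}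

/-- equal weights -/
theorem AW.of_PA {n : ℕ} {u μ ν : ℝ} (hu : 0 < u) (hPA : PA n μ ν) :
    AW (fun _ : Fin n => u) (u * (√n * √(μ + ν))) μ ν := by
  unfold PA at hPA
  obtain ⟨B, hBd⟩ : ∃ B : ℝ, B = √n * √(μ + ν) := ⟨_, rfl⟩
  rw [← hBd] at hPA ⊢
  have hB0 : 0 ≤ B := by rw [hBd]; positivity
  intro η hη
  obtain ⟨s1, hs1⟩ := hPA (η / u) (by positivity)
  obtain ⟨s2, hs2⟩ := Pool.Agent.TH880.NB.exists_large (η := u) (c := s1 + 1) hu
  refine ⟨s2, fun s hs α => ?_⟩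
  have hs2' := hs2 s hs
  have hfl : (⌊u * (s : ℝ)⌋₊ : ℝ) ≤ u * s := Nat.floor_le (by positivity)
  have hfl2 : s1 ≤ ⌊u * (s : ℝ)⌋₊ := Nat.le_floor (by linarith)
  have h1 := hs1 _ hfl2 α
  have e1 : ml (fun _ : Fin n => u) s = fun _ => ⌊u * (s : ℝ)⌋₊ := rfl
  have e2 : cond (fun _ : Fin n => u) s = n * (⌊u * (s : ℝ)⌋₊ + 1).choose 2 := by
    unfold cond
    rw [e1]
    simp
  rw [e1, e2]
  refine h1.mono (Reg_mono le_rfl ?_)
  have h3 : (B + η / u) * (⌊u * (s : ℝ)⌋₊ : ℝ) ≤ (B + η / u) * (u * s) :=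
    mul_le_mul_of_nonneg_left hfl (by positivity)
  have e3 : (B + η / u) * (u * s) = (u * B + η) * s := by field_simp
  linarith

/-- equal weights -/
theorem AW_const {n r : ℕ} (hr : 1 ≤ r) (hn : 4 * r ≤ n) (h9 : r = 1 → 9 ≤ n) {u : ℝ}
    (hu : 0 < u) : AW (fun _ : Fin n => u) (√(mass fun _ : Fin n => u) * √(r : ℝ)) 0 r := by
  have h := AW.of_PA hu (Pool.Agent.Y799.SE.pa1 r n hr hn h9)
  have e : u * (√n * √(0 + (r : ℝ))) = √(mass fun _ : Fin n => u) * √(r : ℝ) := by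
    unfold mass
    rw [zero_add, Finset.sum_const, Finset.card_univ, Fintype.card_fin, nsmul_eq_mul,
      Real.sqrt_mul (Nat.cast_nonneg n), Real.sqrt_sq hu.le]
    ring
  rwa [e] at h

/-- separation of jets at fewer points -/
theorem sepVW_castLE {σ : Type} {n n' : ℕ} (h : n ≤ n') {J : Ideal (MvPolynomial σ ℂ)}
    {V : MvPolynomial σ ℂ → Prop} {s : Fin n' → ℕ} {w : Fin n' → σ → ℂ} (hs : SepVW J V s w) :
    SepVW J V (fun q => s (Fin.castLE h q)) (fun q => w (Fin.castLE h q)) := by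
  intro q f
  obtain ⟨F, h1, h2, h3⟩ := hs (Fin.castLE h q) f
  exact ⟨F, h1, h2, fun q' hq' => h3 _ fun he => hq' (Fin.castLE_injective h he)⟩

/-- **the lower bound, for all weights at once** -/
theorem lowerW {P : Ideal (Co a b)} {α β γ δ : ℕ} (hX : Surf P α β γ) (hnef : Nef P)
    (hδ : δ + 2 * β = α + γ) (hδ1 : 1 ≤ δ) {i : Fin (a + 1)} {j : Fin (b + 1)}
    (hi : X (Sum.inl i) ∉ P) (hj : X (Sum.inr j) ∉ P)
    {FF : Type} [Field FF] [Algebra ℂ FF] {π : Co a b →ₐ[ℂ] FF} (hπ : Mod P i j π)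
    {k : ℕ} {g₁ g₂ : FF} (hP : Pencil π k g₁ g₂) (n : ℕ) (hn1 : 1 ≤ n) :
    ∃ H : ℕ → MvPolynomial (Fin n × Ix a b) ℂ,
      (∃ w : Fin n → Ix a b → ℂ, Tuple i j P w ∧
        ∀ k, eval (fun p => w p.1 p.2) (H k) ≠ 0) ∧
      ∀ w : Fin n → Ix a b → ℂ, Tuple i j P w →
        (∀ k, eval (fun p => w p.1 p.2) (H k) ≠ 0) →
        Function.Injective w ∧
        ∀ y : Fin n → ℝ, (∀ q, 0 < y q) →
          AW y (√(mass y) * √((k ^ 2 * δ : ℕ) : ℝ)) 0 ((k ^ 2 * δ : ℕ) : ℝ) →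
        ∀ (Q : Ideal (Co a b)) (dA dB : ℝ), P ≤ Q → Curv Q dA dB →
          ∀ m : Fin n → ℝ, (∀ q, IsMult i j Q (w q) (m q)) →
            √((δ : ℝ) / mass y) * ∑ q, y q * m q ≤ dA - dB := by
  classical
  have hδ0 : (0 : ℝ) < δ := by exact_mod_cast hδ1
  have hqδ : 0 < √(δ : ℝ) := Real.sqrt_pos.2 hδ0
  obtain ⟨hfin, hgr⟩ := Pool.Agent.Y799.SE.growth hX hnef hδ hπ
  have hrk := Pool.Agent.TH13.N4.s3 a b P α β γ hX i j FF π hπ hfin δ hδ0 hgr k g₁ g₂ hP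
  have hk := hP.hk
  obtain ⟨r, hr⟩ : ∃ r : ℕ, r = k ^ 2 * δ := ⟨_, rfl⟩
  rw [← hr]
  have hr1 : 1 ≤ r := by
    rw [hr]
    exact Nat.one_le_iff_ne_zero.2 (by positivity)
  have hrr : (r : ℝ) = (k : ℝ) ^ 2 * δ := by rw [hr]; push_cast; rfl
  -- the countable family of the separated orders
  let ι : Type := {t : ℕ × (Fin n → ℕ) // (∀ q, 1 ≤ t.2 q) ∧
    ∃ w : Fin n → Ix a b → ℂ, Tuple i j P w ∧
      SepVW (chart i j P) (fun F => Sec π t.1 (π F)) t.2 w}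
  have hmain : ∀ (n' : ℕ), 1 ≤ n' → ∀ y : Fin n' → ℝ, (∀ q, 0 < y q) →
      AW y (√(mass y) * √(r : ℝ)) 0 r → ∀ ε : ℝ, 0 < ε → ∀ K : ℕ, ∃ (m s : ℕ) (sv : Fin n' → ℕ),
        K ≤ s ∧ (∀ q, 1 ≤ sv q) ∧ (∀ q, y q * s < sv q + 1) ∧
        (m : ℝ) * √δ ≤ (1 + ε) * (√(mass y) * s) ∧
        ∃ w : Fin n' → Ix a b → ℂ, Tuple i j P w ∧
          SepVW (chart i j P) (fun F => Sec π m (π F)) sv w := by
    intro n' hn' y hy hAW ε hε K
    obtain ⟨m, s, T, h1, h2, h3, h4, h5, h6⟩ := numW hk hδ0 hrr hrk hn' hy hAW hε K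
    have h7 : ∀ q, y q * s < (ml y s q : ℝ) + 1 := fun q => Nat.lt_floor_add_one (y q * (s : ℝ))
    obtain ⟨sv, hsv⟩ : ∃ sv, sv = ml y s := ⟨_, rfl⟩
    rw [← hsv] at h5
    have h4' : T.card = ∑ q, (sv q + 1).choose 2 := by rw [hsv]; exact h4
    refine ⟨m, s, sv, h1, fun q => ?_, fun q => ?_, h3,
      s4w j3 a b P α β γ hX i j FF π hπ hfin k g₁ g₂ hP n' m sv T h4' h5 h6⟩
    · rw [hsv]
      have := h2 q
      omega
    · rw [hsv]
      exact h7 q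
  have hne : Nonempty ι := by
    obtain ⟨n', hn'⟩ : ∃ n', n' = max (max n (4 * r)) 9 := ⟨_, rfl⟩
    have hnn : n ≤ n' := by rw [hn']; exact (le_max_left _ _).trans (le_max_left _ _)
    have hn4 : 4 * r ≤ n' := by rw [hn']; exact (le_max_right _ _).trans (le_max_left _ _)
    have hn9 : 9 ≤ n' := by rw [hn']; exact le_max_right _ _
    obtain ⟨m, s, sv, -, h2, -, -, w, hw, hsep⟩ := hmain n' (hn1.trans hnn) (fun _ => 1)
      (fun _ => one_pos) (AW_const hr1 hn4 (fun _ => hn9) one_pos) 1 one_pos 0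
    exact ⟨⟨(m, fun q => sv (Fin.castLE hnn q)), fun q => h2 _,
      fun q => w (Fin.castLE hnn q), fun q => hw _, sepVW_castLE hnn hsep⟩⟩
  have hcount : Countable ι := inferInstance
  have hVeq : ∀ m, (fun F : Co a b => F ∈ (SecM π m).comap π.toLinearMap) =
      fun F => Sec π m (π F) := fun m => by
    funext F
    exact propext ((Pool.Agent.TH880.N4.s0 a b P i j FF π hπ m).1 (π F))
  obtain ⟨f, hf⟩ := exists_surjective_nat ι
  obtain ⟨H, ⟨w0, hw0, hw0H⟩, hH2⟩ := s9w_of a b P hX.prime hX.hom i j hi hj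
    (fun t : ι => (SecM π t.1.1).comap π.toLinearMap) n (fun t : ι => t.1.2)
    (by
      obtain ⟨t⟩ := hne
      exact ⟨t, fun q => by have := t.2.1 q; omega⟩)
    (fun t => by
      rw [hVeq]
      exact t.2.2)
  refine ⟨fun κ => H (f κ), ⟨w0, hw0, fun κ => hw0H _⟩, fun w hw hwH => ?_⟩
  have hwH' : ∀ t, eval (fun p => w p.1 p.2) (H t) ≠ 0 := by
    intro t
    obtain ⟨κ, rfl⟩ := hf t
    exact hwH κ
  obtain ⟨hinj, hsep⟩ := hH2 w hw hwH'
  refine ⟨hinj, fun y hy hAW Q dA dB hPQ hQ μ hμ => ?_⟩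
  have hM0 : 0 < mass y := mass_pos hn1 hy
  have hqn : 0 < √(mass y) := Real.sqrt_pos.2 hM0
  have hd : dB ≤ dA := hnef Q dA dB hPQ hQ
  have hμ0 : ∀ q, 0 ≤ μ q := fun q => ge_of_tendsto' (hμ q) fun K => by positivity
  obtain ⟨S, hS⟩ : ∃ S : ℝ, S = ∑ q, y q * μ q := ⟨_, rfl⟩
  obtain ⟨Z, hZ⟩ : ∃ Z : ℝ, Z = ∑ q, μ q := ⟨_, rfl⟩
  have hZ0 : 0 ≤ Z := by rw [hZ]; exact Finset.sum_nonneg fun q _ => hμ0 q
  rw [← hS]
  have hμ' : √((δ : ℝ) / mass y) * S = (√(δ : ℝ) * S) / √(mass y) := by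
    rw [Real.sqrt_div hδ0.le]; ring
  rw [hμ', div_le_iff₀ hqn]
  have hall : ∀ ε : ℝ, 0 < ε → ∀ K : ℕ, 1 ≤ K →
      √(δ : ℝ) * (S - 2 * Z / K) ≤ (1 + ε) * ((dA - dB) * √(mass y)) := by
    intro ε hε K hK
    obtain ⟨m, s, sv, h1, h2, h2', h3, h4⟩ := hmain n hn1 y hy hAW ε hε K
    have hs1 : 1 ≤ s := hK.trans h1
    have hs0 : (0 : ℝ) < s := by exact_mod_cast hs1
    have hK0 : (0 : ℝ) < K := by exact_mod_cast hK
    have hKs : (K : ℝ) ≤ s := by exact_mod_cast h1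
    have h5 := hsep ⟨(m, sv), h2, h4⟩
    rw [hVeq] at h5
    have h6 := s6w_of P i j π hπ n m sv h2 w hw hinj h5 Q dA dB hPQ hQ hd μ hμ
    have h7 : (s : ℝ) * (S - 2 * Z / K) ≤ ∑ q, ((sv q : ℝ) - 1) * μ q := by
      have h71 : (s : ℝ) * S - 2 * Z ≤ ∑ q, ((sv q : ℝ) - 1) * μ q := by
        have e : (s : ℝ) * S - 2 * Z = ∑ q, ((y q * s - 2) * μ q) := by
          rw [hS, hZ, Finset.mul_sum, Finset.mul_sum, ← Finset.sum_sub_distrib]
          exact Finset.sum_congr rfl fun q _ => by ring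
        rw [e]
        refine Finset.sum_le_sum fun q _ => mul_le_mul_of_nonneg_right ?_ (hμ0 q)
        have := h2' q
        linarith
      have h72 : 2 * Z ≤ s * (2 * Z / K) := by
        rw [mul_div_assoc']
        rw [le_div_iff₀ hK0]
        nlinarith
      linarith
    have h8 : (s : ℝ) * (√(δ : ℝ) * (S - 2 * Z / K)) ≤
        s * ((1 + ε) * ((dA - dB) * √(mass y))) := by
      calc (s : ℝ) * (√(δ : ℝ) * (S - 2 * Z / K)) = √(δ : ℝ) * (s * (S - 2 * Z / K)) := by ring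
        _ ≤ √(δ : ℝ) * (m * (dA - dB)) :=
          mul_le_mul_of_nonneg_left (h7.trans h6) hqδ.le
        _ = (m * √(δ : ℝ)) * (dA - dB) := by ring
        _ ≤ ((1 + ε) * (√(mass y) * s)) * (dA - dB) :=
          mul_le_mul_of_nonneg_right h3 (by linarith)
        _ = _ := by ring
    exact le_of_mul_le_mul_left h8 hs0
  -- the limit
  have hlim1 : Tendsto (fun K : ℕ => √(δ : ℝ) * (S - 2 * Z / ((K + 1 : ℕ) : ℝ))) atTop
      (𝓝 (√(δ : ℝ) * (S - 0))) := by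
    refine Tendsto.const_mul _ (Tendsto.const_sub _ ?_)
    exact (tendsto_const_div_atTop_nhds_zero_nat (2 * Z)).comp (tendsto_add_atTop_nat 1)
  have hlim2 : Tendsto (fun K : ℕ => (1 + 1 / ((K : ℝ) + 1)) * ((dA - dB) * √(mass y))) atTop
      (𝓝 ((1 + 0) * ((dA - dB) * √(mass y)))) := by
    refine Tendsto.mul_const _ (Tendsto.const_add _ ?_)
    exact tendsto_one_div_add_atTop_nhds_zero_nat
  have hfinal := le_of_tendsto_of_tendsto' hlim1 hlim2 fun K =>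
    hall (1 / ((K : ℝ) + 1)) (by positivity) (K + 1) (by omega)
  rw [sub_zero, add_zero, one_mul] at hfinal
  exact hfinal

end Pool.Agent.J6H77.WS
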